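import Pool.Agent.Helper71.HN.SheetZ
import Pool.Agent.Helper77.JN.FINU

/-!
Project HZ, row FINZ: the final theorem over a number field.
-/

set_option autoImplicit false

namespace Pool.Agent.Helper12.HZ

open Polynomial Filter Finset Pool.Agent.Helper70.SUB Pool.Agent.Helper77.SUBK
  Pool.Agent.Helper70.SUBL Pool.Agent.Helper70.SUBW Pool.Agent.Helper71.JN
  Pool.Agent.Helper71.HN Pool.Agent.Helper77.JN Pool.Agent.Helper71.HZ

/-- a sparse number as the image of a sparse element of `M` -/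
theorem sparse_lift {M : Type} [Field M] [NumberField M] {S : Finset ℕ} {ψ : M →+* ℂ}
    {Γ : Subgroup ℂˣ} (hΓ : ∀ γ ∈ Γ, ∃ ρ : M, SV S ρ ∧ ψ ρ = ((γ : ℂˣ) : ℂ)) {t : ℕ}
    (H H' : ℝ) (z : ℂ) (hz : Sparse Γ t H H' z) : ∃ (c : Fin t → ℤ) (a : Fin t → M),
      (∀ i, SV S (a i)) ∧ (∀ i, |(c i : ℝ)| ≤ H) ∧ ψ (∑ i, (c i : M) * a i) = z ∧
      HBZ ψ H' (∑ i, (c i : M) * a i) := by
  obtain ⟨⟨c, γ, hγ, hc, hzs⟩, hD, hcj⟩ := hz
  choose ρ hρS hρ using fun i => hΓ (γ i) (hγ i)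
  have e : ψ (∑ i, (c i : M) * ρ i) = z := by
    rw [map_sum, hzs]
    refine Finset.sum_congr rfl fun i _ => ?_
    rw [map_mul, map_intCast, hρ i]
  exact ⟨c, ρ, hρS, hc, e, hbz_of ψ e hD hcj⟩

theorem hbz_mono {M : Type} [Field M] [NumberField M] {ψ : M →+* ℂ} {H H' : ℝ} {z : M}
    (hH : H ≤ H') (h : HBZ ψ H z) : HBZ ψ H' z := by
  obtain ⟨⟨D, h1, h2, h3⟩, h4⟩ := h
  exact ⟨⟨D, h1, le_trans h2 hH, h3⟩, fun σ => le_trans (h4 σ) hH⟩

/-- (FINZ) -/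
theorem FINZ (hT1Z : ST_T1Z) (hEMB : ST_EMB) (hHTK : ST_HTK) (hFLDZ : ST_FLDZ) : ST_FINZ := by
  classical
  intro K _ _ h hh Γ t d κ θ B hfg halg hd hd3 hθ
  obtain ⟨hh0, hden, hemb, hhub⟩ := hHTK K h hh
  obtain ⟨M, iF, iN, iG, S, ψ, i, hS, hΓ⟩ := hFLDZ K Γ hfg halg
  obtain ⟨g, hg⟩ := hd
  set n : ℝ := (Module.finrank ℚ K : ℝ) with hn
  have hn1 : 1 ≤ n := by
    rw [hn]
    exact_mod_cast Module.finrank_pos
  have hn0 : 0 < n := by linarith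
  set G : ℝ := (Fintype.card (M ≃ₐ[ℚ] M) : ℝ) with hG
  have hG1 : 1 ≤ G := by
    rw [hG]
    exact_mod_cast Fintype.card_pos
  have hG0 : 0 < G := by linarith
  obtain ⟨C, hC0, hC⟩ := hT1Z M S ψ t g (max κ n) θ (|B| * (2 * n)) hS (by omega) hθ
  refine ⟨2 * n * C, 2 * n * C, by positivity, by positivity, ?_⟩
  intro F hF hsep x y hxy H hH m p q hm hint hpq hmain
  have hH0 : 0 ≤ H := le_trans (hh0 _) (hH 0)
  -- the embeddings
  let τ : (M ≃ₐ[ℚ] M) → (K →+* ℂ) := fun σ => (ψ.comp (σ : M →+* M)).comp i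
  let f1 : (K →+* ℂ) → ℝ := fun τ =>
    Real.log (max 1 ‖τ x - τ (F.coeff d) * (p τ / q τ) ^ 2‖)
  let f2 : (K →+* ℂ) → ℝ := fun τ => Real.log (max 1 ‖τ x‖)
  have hE1 : n * ∑ σ, f1 (τ σ) = G * ∑ τ, f1 τ := hEMB K M i ψ f1
  have hE2 : n * ∑ σ, f2 (τ σ) = G * ∑ τ, f2 τ := hEMB K M i ψ f2
  have hLam : Lam ψ (i x) = ∑ σ, f2 (τ σ) := rfl
  have hf1 : ∀ τ, 0 ≤ f1 τ := fun τ => Real.log_nonneg (le_max_left _ _)
  have hf2 : ∀ τ, 0 ≤ f2 τ := fun τ => Real.log_nonneg (le_max_left _ _)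
  have hs1 : 0 ≤ ∑ τ, f1 τ := Finset.sum_nonneg fun τ _ => hf1 τ
  have hs2 : 0 ≤ ∑ τ, f2 τ := Finset.sum_nonneg fun τ _ => hf2 τ
  have hL0 : 0 ≤ Lam ψ (i x) := by
    rw [hLam]
    exact Finset.sum_nonneg fun σ _ => hf2 _
  have hmain' : n * Real.log m + ∑ τ, f1 τ ≤ θ * ∑ τ, f2 τ := hmain
  have hlm : 0 ≤ Real.log m := Real.log_nonneg (by exact_mod_cast Nat.one_le_iff_ne_zero.mpr hm)
  -- the height of `x`
  have hx2 : ∑ τ, f2 τ ≤ n * Lam ψ (i x) := by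
    rw [hLam, hE2]
    nlinarith
  have hhx : h x ≤ 2 * n * Lam ψ (i x) := by
    have h1 : h x ≤ 2 * Real.log m + ∑ τ, f2 τ := hhub x m hm hint
    have h2 : Real.log m ≤ n * Real.log m := by nlinarith
    have h3 : θ * ∑ τ, f2 τ ≤ 1 / 2 * ∑ τ, f2 τ := mul_le_mul_of_nonneg_right hθ.le hs2
    linarith
  have hBx : B * h x ≤ |B| * (2 * n) * Lam ψ (i x) := by
    calc B * h x ≤ |B| * h x := mul_le_mul_of_nonneg_right (le_abs_self B) (hh0 x)
      _ ≤ |B| * (2 * n * Lam ψ (i x)) := mul_le_mul_of_nonneg_left hhx (abs_nonneg B)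
      _ = |B| * (2 * n) * Lam ψ (i x) := by ring
  have hexpB : Real.exp (B * h x) ≤ Real.exp (|B| * (2 * n) * Lam ψ (i x)) :=
    Real.exp_le_exp.mpr hBx
  have hκ : Real.exp (κ * (H + 1)) ≤ Real.exp (max κ n * (H + 1)) :=
    Real.exp_le_exp.mpr (mul_le_mul_of_nonneg_right (le_max_left _ _) (by linarith))
  have hnH : Real.exp (n * H) ≤ Real.exp (max κ n * (H + 1)) := by
    apply Real.exp_le_exp.mpr
    have h1 : n ≤ max κ n := le_max_right _ _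
    nlinarith
  choose c a ha hc hpa hpB using fun σ => sparse_lift hΓ _ _ _ (hpq (τ σ)).1
  choose e b hb he hqb hqB using fun σ => sparse_lift hΓ _ _ _ (hpq (τ σ)).2.1
  have key := hC (F.map i) (i x) (i y) H m c e a b hH0
    (by rw [Polynomial.natDegree_map, hF, hg]) hsep.map
    (by rw [← map_pow, hxy, Polynomial.eval_map, Polynomial.eval₂_hom]) ?_ hm ?_ ha hb
    (fun σ j => le_trans (hc σ j) hκ) (fun σ j => le_trans (he σ j) hκ)
    (fun σ => hbz_mono hexpB (hpB σ)) (fun σ => hbz_mono hexpB (hqB σ)) ?_ ?_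
  · calc h x ≤ 2 * n * Lam ψ (i x) := hhx
      _ ≤ 2 * n * (C * (H + 1)) := mul_le_mul_of_nonneg_left key (by positivity)
      _ = 2 * n * C * H + 2 * n * C := by ring
  · intro j
    rw [Polynomial.coeff_map]
    refine hbz_mono hnH ⟨?_, fun σ => ?_⟩
    · obtain ⟨D, hD0, hD1, hD2⟩ := hden (F.coeff j)
      refine ⟨D, hD0, le_trans hD1 (Real.exp_le_exp.mpr ?_), ?_⟩
      · exact mul_le_mul_of_nonneg_left (hH j) hn0.le
      · have h1 := hD2.map i.toIntAlgHom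
        have e1 : i.toIntAlgHom ((D : K) * F.coeff j) = (D : M) * i (F.coeff j) := by
          simp
        rwa [e1] at h1
    · refine le_trans (hemb (F.coeff j) (τ σ)) (Real.exp_le_exp.mpr ?_)
      exact mul_le_mul_of_nonneg_left (hH j) hn0.le
  · have h1 := hint.map i.toIntAlgHom
    have e1 : i.toIntAlgHom ((m : K) * x) = (m : M) * i x := by
      simp
    rwa [e1] at h1
  · intro σ h0
    exact (hpq (τ σ)).2.2 (by rw [← hqb σ, h0, map_zero])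
  · have h1 : G * Real.log m + ∑ σ, f1 (τ σ) ≤ θ * Lam ψ (i x) := by
      rw [hLam]
      have h2 : n * (G * Real.log m + ∑ σ, f1 (τ σ)) ≤ n * (θ * ∑ σ, f2 (τ σ)) := by
        calc n * (G * Real.log m + ∑ σ, f1 (τ σ))
            = G * (n * Real.log m) + n * ∑ σ, f1 (τ σ) := by ring
          _ = G * (n * Real.log m + ∑ τ, f1 τ) := by rw [hE1]; ring
          _ ≤ G * (θ * ∑ τ, f2 τ) := mul_le_mul_of_nonneg_left hmain' hG0.le
          _ = θ * (G * ∑ τ, f2 τ) := by ring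
          _ = n * (θ * ∑ σ, f2 (τ σ)) := by rw [← hE2]; ring
      exact le_of_mul_le_mul_left h2 hn0
    refine le_trans (le_of_eq ?_) h1
    congr 1
    refine Finset.sum_congr rfl fun σ _ => ?_
    rw [Polynomial.coeff_map, map_div₀, hpa σ, hqb σ, ← hg]
    rfl

end Pool.Agent.Helper12.HZ
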