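import Pool.Agent.Helper71.HN.SheetE
import Pool.Agent.Helper12.HN.FINZ

/-!
Project HE, row FINE: the final theorem over a number field (even degree).
-/

set_option autoImplicit false

namespace Pool.Agent.Helper12.HE

open Polynomial Filter Finset Pool.Agent.Helper70.SUB Pool.Agent.Helper77.SUBK
  Pool.Agent.Helper70.SUBL Pool.Agent.Helper70.SUBW Pool.Agent.Helper71.JN
  Pool.Agent.Helper71.HN Pool.Agent.Helper71.HZ Pool.Agent.Helper71.HE

/-- the two cases in a common form -/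
theorem common {K : Type} [Field K] [NumberField K] (hSUBE : ST_SUBE) (h : K → ℝ)
    (hh0 : ∀ a : K, 0 ≤ h a) (hadd : ∀ a b : K, h (a + b) ≤ h a + h b + 1)
    (hmul : ∀ a b : K, h (a * b) ≤ h a + h b) (hinv : ∀ a : K, h a⁻¹ = h a)
    (Γ : Subgroup Kˣ) (d g : ℕ) (κ κ' : ℝ) (hκ'0 : 0 < κ')
    (hκ' : ∀ (F : K[X]) (e : K) (H : ℝ), F.natDegree ≤ d → 0 ≤ H →
      (∀ i, h (F.coeff i) ≤ H) → h e ≤ κ * (H + 1) →
      ∀ j, h ((Polynomial.taylor e F).coeff j) ≤ κ' * (H + 1))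
    (hdg : d = 2 * g + 2 ∨ d = 2 * g + 1) (F : K[X]) (hF : F.natDegree = d)
    (hsep : F.Separable) (x y : K) (hxy : y ^ 2 = F.eval x) (H : ℝ) (hH0 : 0 ≤ H)
    (hH : ∀ i, h (F.coeff i) ≤ H) (z : K)
    (hz : (Even d ∧ SqClass Γ (F.coeff d) ∧ x = z) ∨
      ∃ e : K, h e ≤ κ * (H + 1) ∧ F.eval e ≠ 0 ∧ SqClass Γ (F.eval e) ∧ z ≠ 0 ∧
        x = e + 1 / z) :
    ∃ (G : K[X]) (y' : K), G.natDegree = 2 * g + 2 ∧ G.Separable ∧
      SqClass Γ (G.coeff (2 * g + 2)) ∧ y' ^ 2 = G.eval z ∧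
      (∀ j, h (G.coeff j) ≤ (1 + κ') * (H + 1)) ∧
      h x ≤ h z + |κ| * (H + 1) + 1 ∧ h z ≤ h x + |κ| * (H + 1) + 1 + h (-1) := by
  have hH1 : 0 ≤ H + 1 := by linarith
  have hk : 0 ≤ |κ| * (H + 1) := mul_nonneg (abs_nonneg _) hH1
  rcases hz with ⟨hev, hsq, hxz⟩ | ⟨e, he, hFe, hsq, hz0, hxz⟩
  · have hd : d = 2 * g + 2 := by
      rcases hdg with h1 | h1
      · exact h1
      · obtain ⟨k, hk⟩ := hev
        omega
    refine ⟨F, y, by rw [hF, hd], hsep, by rw [← hd]; exact hsq, by rw [← hxz]; exact hxy,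
      fun j => ?_, ?_, ?_⟩
    · have h1 := hH j
      nlinarith
    · rw [hxz]
      linarith
    · rw [hxz]
      have := hh0 (-1)
      linarith
  · have hdeg : F.natDegree = 2 * g + 2 ∨ F.natDegree = 2 * g + 1 := by rw [hF]; exact hdg
    obtain ⟨G, hG1, hG2, hG3, hG4, hG5⟩ := hSUBE K F g e z x y hdeg hsep hFe hz0 hxz hxy
    have he' : h e ≤ |κ| * (H + 1) :=
      le_trans he (mul_le_mul_of_nonneg_right (le_abs_self κ) hH1)
    refine ⟨G, y * z ^ (g + 1), hG1, hG2, by rw [hG3]; exact hsq, hG4, fun j => ?_, ?_, ?_⟩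
    · by_cases hj : j ≤ 2 * g + 2
      · rw [hG5 j hj]
        have h1 := hκ' F e H hF.le hH0 hH he (2 * g + 2 - j)
        nlinarith
      · have h1 : G.coeff j = 0 := Polynomial.coeff_eq_zero_of_natDegree_lt (by omega)
        have h2 : F.coeff (d + 1) = 0 := Polynomial.coeff_eq_zero_of_natDegree_lt (by omega)
        have h3 := hH (d + 1)
        rw [h2] at h3
        rw [h1]
        nlinarith
    · have h1 := hadd e (1 / z)
      rw [one_div, hinv] at h1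
      rw [hxz, one_div]
      linarith
    · have h1 : h z = h (x + (-1) * e) := by
        rw [hxz, ← hinv z]
        congr 1
        rw [one_div]
        ring
      have h2 := hadd x ((-1) * e)
      have h3 := hmul (-1) e
      rw [h1]
      linarith

/-- (FINE) -/
theorem FINE (hT1E : ST_T1E) (hSUBE : ST_SUBE) (hHCO : ST_HCO) (hHTT : ST_HTT)
    (hFLDE : ST_FLDE) (hSVB : ST_SVB) : ST_FINE := by
  classical
  intro K _ _ h hh S w hExt Γ t d κ δ B hfg hd3 hδ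
  obtain ⟨M, iF, iN, iG, S', P, i, hSS, hS', hnv, hΓ, hΓ2, hτ⟩ := hFLDE K S w Γ hExt hfg
  obtain ⟨Ct, hCt1, hh0, hHB, hLam, hub⟩ := hHTT K M h i S' P hh hS'
  obtain ⟨hadd, hmul, hinv, hTay⟩ := hHCO K h hh
  obtain ⟨κ', hκ'0, hκ'⟩ := hTay d κ
  have hCt0 : 0 < Ct := by linarith
  obtain ⟨g, hg1, hdg⟩ : ∃ g : ℕ, 1 ≤ g ∧ (d = 2 * g + 2 ∨ d = 2 * g + 1) :=
    ⟨(d - 1) / 2, by omega, by omega⟩
  set κM : ℝ := Ct * (1 + κ' + |κ|) with hκM
  set D : ℝ := |κ| + 1 + Ct * (|κ| + 1) with hD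
  have hk0 : 0 ≤ |κ| := abs_nonneg κ
  have hD0 : 0 < D := by positivity
  have hδ' : 0 < δ / (2 * Ct) := by positivity
  obtain ⟨C, hC0, hC⟩ := hT1E M S' P t g κM (δ / (2 * Ct)) (Ct * |B| * D) hS' hg1 hδ'
  have hc1 : 0 ≤ h (-1) := hh0 _
  refine ⟨|κ| + D * (C + 1) , |κ| + 1 + h (-1) + D * (C + 1), by positivity, by positivity, ?_⟩
  intro F hF hsep x y hxy H hH z hz m o τ p q hm hmH hSI ho hp hq hpB hqB hq0 hmain
  have hH0 : 0 ≤ H := le_trans (hh0 _) (hH 0)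
  have hH1 : 0 ≤ H + 1 := by linarith
  have hkH : 0 ≤ |κ| * (H + 1) := mul_nonneg hk0 hH1
  obtain ⟨G, y', hG1, hG2, ⟨γ, hγ, b, hb⟩, hG4, hG5, hxz1, hxz2⟩ :=
    common hSUBE h hh0 hadd hmul hinv Γ d g κ κ' hκ'0 hκ' hdg F hF hsep x y hxy H hH0 hH z hz
  by_cases hbig : h x < |κ| * (H + 1) + 1 + h (-1)
  · have h1 : 0 ≤ D * (C + 1) * (H + 1) := by positivity
    nlinarith
  have hbig' : |κ| * (H + 1) + 1 + h (-1) ≤ h x := not_lt.mp hbig
  -- the place
  obtain ⟨σ, hσ⟩ := hτ τ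
  have ho' : o ∈ plc S' := by
    rcases o with _ | l
    · exact mem_none
    · exact mem_some (hSS (of_mem_some ho))
  have hpv : ∀ a : K, pv w o (τ a) = P.nv o (σ (i a)) := by
    intro a
    rcases o with _ | l
    · rw [P.inf, ← hσ]
      rfl
    · rw [hnv l (of_mem_some ho), ← hσ]
      rfl
  -- the heights
  have hL0 : 0 ≤ LamP P (i z) :=
    Finset.sum_nonneg fun _ _ => Real.log_nonneg (le_max_left _ _)
  have hm0 : (0 : ℝ) < m := by exact_mod_cast Nat.pos_of_ne_zero hm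
  have hlogm : Real.log m ≤ |κ| * (H + 1) := by
    have h1 : Real.log m ≤ κ * (H + 1) := by
      have h2 := Real.log_le_log hm0 hmH
      rwa [Real.log_exp] at h2
    exact le_trans h1 (mul_le_mul_of_nonneg_right (le_abs_self κ) hH1)
  have hSI' : SI S' ((m : M) * i z) := by
    obtain ⟨-, -, h3, -, -, -, -, -, -, -, -, -⟩ := hSVB M
    obtain ⟨-, -, -, -, -, -, -, -, -, -, h11, -⟩ := hSVB K
    have h1 := (h11 M i S ((m : K) * z)).1 hSI
    rw [map_mul, map_natCast] at h1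
    exact (h3 S S' _ hSS).1 h1
  have hzL : h z ≤ Ct * (|κ| * (H + 1) + LamP P (i z) + 1) := by
    refine le_trans (hub z m hm hSI') (mul_le_mul_of_nonneg_left ?_ hCt0.le)
    linarith
  have hxL : h x ≤ D * (LamP P (i z) + H + 1) := by
    have e1 : D * (LamP P (i z) + H + 1) = |κ| * (LamP P (i z) + H + 1) +
        (LamP P (i z) + H + 1) + Ct * (|κ| * (LamP P (i z) + H + 1) +
          (LamP P (i z) + H + 1)) := by
      rw [hD]
      ring
    have h2 : |κ| * (H + 1) ≤ |κ| * (LamP P (i z) + H + 1) :=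
      mul_le_mul_of_nonneg_left (by linarith) hk0
    have h3 : Ct * (|κ| * (H + 1) + LamP P (i z) + 1) ≤
        Ct * (|κ| * (LamP P (i z) + H + 1) + (LamP P (i z) + H + 1)) :=
      mul_le_mul_of_nonneg_left (by linarith) hCt0.le
    rw [e1]
    linarith
  have hLx : LamP P (i z) ≤ 2 * Ct * h x := by
    have h1 := hLam z
    have h2 : h z ≤ 2 * h x := by linarith
    calc LamP P (i z) ≤ Ct * h z := h1
      _ ≤ Ct * (2 * h x) := mul_le_mul_of_nonneg_left h2 hCt0.le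
      _ = 2 * Ct * h x := by ring
  -- the constants
  have hκ1 : Real.exp (κ * (H + 1)) ≤ Real.exp (κM * (H + 1)) := by
    refine Real.exp_le_exp.mpr (mul_le_mul_of_nonneg_right ?_ hH1)
    have h1 := le_abs_self κ
    have h2 : 1 * (1 + κ' + |κ|) ≤ κM := by
      rw [hκM]
      exact mul_le_mul_of_nonneg_right hCt1 (by positivity)
    linarith
  have hκ2 : ∀ a : K, h a ≤ (1 + κ') * (H + 1) → HBZ P.emb (Real.exp (κM * (H + 1))) (i a) := by
    intro a ha
    refine Pool.Agent.Helper12.HZ.hbz_mono (Real.exp_le_exp.mpr ?_) (hHB a)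
    calc Ct * h a ≤ Ct * ((1 + κ') * (H + 1)) := mul_le_mul_of_nonneg_left ha hCt0.le
      _ ≤ Ct * ((1 + κ' + |κ|) * (H + 1)) := by
          refine mul_le_mul_of_nonneg_left ?_ hCt0.le
          exact mul_le_mul_of_nonneg_right (by linarith) hH1
      _ = κM * (H + 1) := by rw [hκM]; ring
  have hκ3 : ∀ a : K, h a ≤ κ * (H + 1) → HBZ P.emb (Real.exp (κM * (H + 1))) (i a) := by
    intro a ha
    refine Pool.Agent.Helper12.HZ.hbz_mono (Real.exp_le_exp.mpr ?_) (hHB a)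
    have h1 := le_abs_self κ
    calc Ct * h a ≤ Ct * ((1 + κ' + |κ|) * (H + 1)) := by
          refine mul_le_mul_of_nonneg_left (le_trans ha ?_) hCt0.le
          exact mul_le_mul_of_nonneg_right (by linarith) hH1
      _ = κM * (H + 1) := by rw [hκM]; ring
  have hB1 : ∀ a : K, h a ≤ B * h x →
      HBZ P.emb (Real.exp (Ct * |B| * D * (LamP P (i z) + H + 1))) (i a) := by
    intro a ha
    refine Pool.Agent.Helper12.HZ.hbz_mono (Real.exp_le_exp.mpr ?_) (hHB a)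
    have h1 : h a ≤ |B| * h x :=
      le_trans ha (mul_le_mul_of_nonneg_right (le_abs_self B) (hh0 x))
    calc Ct * h a ≤ Ct * (|B| * h x) := mul_le_mul_of_nonneg_left h1 hCt0.le
      _ ≤ Ct * (|B| * (D * (LamP P (i z) + H + 1))) :=
          mul_le_mul_of_nonneg_left (mul_le_mul_of_nonneg_left hxL (abs_nonneg B)) hCt0.le
      _ = Ct * |B| * D * (LamP P (i z) + H + 1) := by ring
  obtain ⟨c, a, hc, ha, hpe⟩ := hp
  obtain ⟨c', a', hc', ha', hqe⟩ := hq
  have hpe' : ∑ j, i (c j) * i ((a j : Kˣ) : K) = i p := by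
    rw [hpe, map_sum]
    exact Finset.sum_congr rfl fun j _ => (map_mul i _ _).symm
  have hqe' : ∑ j, i (c' j) * i ((a' j : Kˣ) : K) = i q := by
    rw [hqe, map_sum]
    exact Finset.sum_congr rfl fun j _ => (map_mul i _ _).symm
  obtain ⟨ρ, hρ⟩ := hΓ2 γ hγ
  have key := hC (G.map i) (i z) (i y') (ρ * i b) H m o σ (fun j => i (c j))
    (fun j => i (c' j)) (fun j => i ((a j : Kˣ) : K)) (fun j => i ((a' j : Kˣ) : K)) hH0
    (by rw [Polynomial.natDegree_map, hG1]) hG2.map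
    (by rw [← map_pow, hG4, Polynomial.eval_map, Polynomial.eval₂_hom])
    (by rw [Polynomial.coeff_map, hb, map_mul, map_pow, mul_pow, hρ])
    (fun j => by rw [Polynomial.coeff_map]; exact hκ2 _ (hG5 j)) hm (le_trans hmH hκ1) hSI' ho'
    (fun j => hΓ _ (ha j)) (fun j => hΓ _ (ha' j)) (fun j => hκ3 _ (hc j))
    (fun j => hκ3 _ (hc' j)) (by rw [hpe']; exact hB1 p hpB) (by rw [hqe']; exact hB1 q hqB)
    (by rw [hqe']; exact fun h0 => hq0 ((map_eq_zero i).mp h0)) ?_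
  · have h1 : LamP P (i z) + H + 1 ≤ (C + 1) * (H + 1) := by nlinarith
    have h2 : h x ≤ D * ((C + 1) * (H + 1)) := le_trans hxL (mul_le_mul_of_nonneg_left h1 hD0.le)
    nlinarith
  · rw [hpe', hqe', ← map_div₀, ← map_sub, ← hpv, ← hpv]
    refine le_trans (mul_le_mul_of_nonneg_left (Real.exp_le_exp.mpr ?_)
      (le_trans zero_le_one (le_max_left _ _))) hmain
    calc δ / (2 * Ct) * LamP P (i z) ≤ δ / (2 * Ct) * (2 * Ct * h x) :=
          mul_le_mul_of_nonneg_left hLx hδ'.le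
      _ = δ * h x := by field_simp

end Pool.Agent.Helper12.HE
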