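import Pool.Agent.Helper71.HN.SheetP
import Pool.Agent.Helper2.HN.FING

/-! Sheet P, row FINP: the final theorem in odd degree with the optimal constants (as
`Helper2.HX.FINX` and `Helper2.HO.FINO`). -/

set_option autoImplicit false

namespace Pool.Agent.Helper12.HP

open Polynomial Filter Finset Pool.Agent.Helper70.SUB Pool.Agent.Helper77.SUBK
  Pool.Agent.Helper70.SUBL Pool.Agent.Helper70.SUBW Pool.Agent.Helper71.JN Pool.Agent.Helper71.HN
  Pool.Agent.Helper71.HZ Pool.Agent.Helper71.HE Pool.Agent.Helper71.HO Pool.Agent.Helper77.HM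
  Pool.Agent.Helper71.HX Pool.Agent.Helper71.HP Pool.Agent.Helper2.HM

/-- (FINP) -/
theorem FINP (hT1P : ST_T1P) (hSUBO : ST_SUBO) (hHCO : ST_HCO) (hHTT : ST_HTT)
    (hFLDE : ST_FLDE) (hEMB : ST_EMB) : ST_FINP := by
  classical
  intro K _ _ h hh S w hExt Γ t ν d κ δ B hfg hd3 hδ
  obtain ⟨M, iF, iN, iG, S', P, i, hSS, hS', hw, hΓ, -, -⟩ := hFLDE K S w Γ hExt hfg
  obtain ⟨C, hC1, hh0, hHB, hLC, hHi⟩ := hHTT K M h i S' P hh hS'
  obtain ⟨hadd, hmul, hinv, htay⟩ := hHCO K h hh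
  obtain ⟨κ', hκ'0, hκ'⟩ := htay d κ
  set n : ℝ := (Module.finrank ℚ K : ℝ) with hn
  have hn1 : 1 ≤ n := by
    rw [hn]
    exact_mod_cast Module.finrank_pos
  have hn0 : 0 < n := by linarith
  set G : ℝ := (Fintype.card (M ≃ₐ[ℚ] M) : ℝ) with hG
  have hG1 : 1 ≤ G := by
    rw [hG]
    exact_mod_cast Fintype.card_pos
  have hG0 : 0 < G := by linarith
  have hC0 : 0 < C := by linarith
  obtain ⟨N, hN⟩ : ∃ N : ℝ, N = ((plc S').card : ℝ) := ⟨_, rfl⟩
  have hN0 : 0 ≤ N := by rw [hN]; positivity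
  obtain ⟨N', hN'⟩ : ∃ N' : ℝ, N' = ((plc S).card : ℝ) := ⟨_, rfl⟩
  have hN'0 : 0 ≤ N' := by rw [hN']; positivity
  have hκa : 0 ≤ |κ| := abs_nonneg κ
  have hBa : 0 ≤ |B| := abs_nonneg B
  obtain ⟨A, hA⟩ : ∃ A : ℝ, A = |κ| + h (-1) + 1 := ⟨_, rfl⟩
  have hA1 : 1 ≤ A := by
    rw [hA]
    linarith [hh0 (-1)]
  obtain ⟨κ₀, hκ₀⟩ : ∃ κ₀ : ℝ, κ₀ = 1 + |κ| + κ' := ⟨_, rfl⟩
  have hκ₀1 : 1 ≤ κ₀ := by rw [hκ₀]; linarith
  obtain ⟨g, hg⟩ : ∃ g : ℕ, g = (d - 1) / 2 := ⟨_, rfl⟩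
  obtain ⟨B₁, hB₁⟩ : ∃ B₁ : ℝ, B₁ = 2 * C + N' * G * |B| + 4 * C * (1 + N * G) +
      C * |B| + |B| := ⟨_, rfl⟩
  have hNG : 0 ≤ N * G := mul_nonneg hN0 hG0.le
  have hN'G : 0 ≤ N' * G := mul_nonneg hN'0 hG0.le
  have hB₁a : 2 * C ≤ B₁ := by
    rw [hB₁]
    have : 0 ≤ N' * G * |B| + 4 * C * (1 + N * G) + C * |B| + |B| := by positivity
    linarith
  have hB₁b : 2 * C + N' * G * |B| ≤ B₁ := by
    rw [hB₁]
    have : 0 ≤ 4 * C * (1 + N * G) + C * |B| + |B| := by positivity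
    linarith
  have hB₁c : 4 * C * (1 + N * G) ≤ B₁ := by
    rw [hB₁]
    have : 0 ≤ 2 * C + N' * G * |B| + C * |B| + |B| := by positivity
    linarith
  have hB₁d : C * |B| ≤ B₁ := by
    rw [hB₁]
    have : 0 ≤ 2 * C + N' * G * |B| + 4 * C * (1 + N * G) + |B| := by positivity
    linarith
  have hB₁e : |B| ≤ B₁ := by
    rw [hB₁]
    have : 0 ≤ 2 * C + N' * G * |B| + 4 * C * (1 + N * G) + C * |B| := by positivity
    linarith
  have hB₁0 : 0 < B₁ := by linarith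
  have hδG : 0 < δ * G / n := by positivity
  choose Cf hCf0 hCf using fun k : Option ℕ → (M ≃ₐ[ℚ] M) → ℕ =>
    hT1P M S' S P k t g (C * κ₀) (δ * G / n) B₁ hS' hSS (by omega) hδG hB₁0
  let ext : (↥(plc S) × (M ≃ₐ[ℚ] M) → Fin (ν + 1)) → Option ℕ → (M ≃ₐ[ℚ] M) → ℕ :=
    fun k o σ => if ho : o ∈ plc S then (k (⟨o, ho⟩, σ) : ℕ) else 0
  obtain ⟨C₀, hC₀⟩ : ∃ C₀ : ℝ, C₀ = ∑ k : ↥(plc S) × (M ≃ₐ[ℚ] M) → Fin (ν + 1),
    Cf (ext k) := ⟨_, rfl⟩
  have hC₀V : ∀ k, Cf (ext k) ≤ C₀ := by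
    intro k
    rw [hC₀]
    exact Finset.single_le_sum (f := fun k : ↥(plc S) × (M ≃ₐ[ℚ] M) → Fin (ν + 1) =>
      Cf (ext k)) (fun k _ => (hCf0 _).le) (Finset.mem_univ k)
  have hC₀0 : 0 ≤ C₀ := by
    rw [hC₀]
    exact sum_nonneg fun k _ => (hCf0 _).le
  refine ⟨4 * A + 2 * C + C₀, 4 * A + 2 * C + C₀, by positivity, by positivity, ?_⟩
  intro F hF hsep x y hxy H hH z cz hcase m u hm hint hnear hmain
  have hH0 : 0 ≤ H := le_trans (hh0 _) (hH 0)
  have hgoal : h x ≤ (4 * A + 2 * C + C₀) * (H + 1) →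
      h x ≤ (4 * A + 2 * C + C₀) * H + (4 * A + 2 * C + C₀) := fun h1 => by linarith
  apply hgoal
  by_contra hbig
  rw [not_le] at hbig
  have hbig1 : 4 * (A * (H + 1)) ≤ h x := by
    have h1 : 0 ≤ (2 * C + C₀) * (H + 1) := by positivity
    linarith
  have hbig2 : 2 * C < h x := by
    have h1 : 0 ≤ (4 * A + C₀) * (H + 1) + 2 * C * H := by positivity
    linarith
  have hx0 : 0 < h x := by linarith
  -- the embeddings
  let τ : (M ≃ₐ[ℚ] M) → (K →+* ℂ) := fun σ => (P.emb.comp (σ : M →+* M)).comp i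
  have hpv : ∀ o ∈ plc S, ∀ (σ : M ≃ₐ[ℚ] M) (v : K), P.nv o (σ (i v)) = pv w o (τ σ v) := by
    intro o ho σ v
    cases o with
    | none => exact P.inf _
    | some l => exact hw l (of_mem_some ho) _
  have hEo : ∀ f : Option ℕ → (K →+* ℂ) → ℝ, n * ∑ o ∈ plc S, ∑ σ, f o (τ σ) =
      G * ∑ o ∈ plc S, ∑ τ, f o τ := by
    intro f
    rw [mul_sum, mul_sum]
    exact sum_congr rfl fun o _ => hEMB K M i P.emb (f o)
  have hLe : n * LamO P S (i z) =
      G * ∑ o ∈ plc S, ∑ τ : K →+* ℂ, Real.log (max 1 (pv w o (τ z))) := by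
    rw [← hEo fun o τ => Real.log (max 1 (pv w o (τ z))), LamO]
    congr 1
    exact sum_congr rfl fun o ho => sum_congr rfl fun σ _ => by rw [hpv o ho]
  have hlm : 0 ≤ Real.log m := Real.log_nonneg (by exact_mod_cast Nat.one_le_iff_ne_zero.mpr hm)
  have hintM : SI S ((m : M) * i z) := by
    obtain ⟨k, hk, hk2⟩ := hint
    refine ⟨k, hk, ?_⟩
    have h1 := hk2.map i.toIntAlgHom
    have e1 : i.toIntAlgHom ((k : K) * ((m : K) * z)) = (k : M) * ((m : M) * i z) := by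
      simp
    rwa [e1] at h1
  -- heights
  have hneg : ∀ a b : K, h (a - b) ≤ h a + h (-1) + h b + 1 := by
    intro a b
    have h1 := hadd a (-1 * b)
    have h2 := hmul (-1) b
    have e1 : a - b = a + -1 * b := by ring
    rw [e1]
    linarith
  have hκH : κ * (H + 1) ≤ |κ| * (H + 1) :=
    mul_le_mul_of_nonneg_right (le_abs_self κ) (by linarith)
  have hAH : A * (H + 1) = |κ| * (H + 1) + (h (-1) + 1) * (H + 1) := by
    rw [hA]
    ring
  have hAH1 : h (-1) + 1 ≤ (h (-1) + 1) * (H + 1) := by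
    have h1 : 0 ≤ (h (-1) + 1) * H := mul_nonneg (by linarith [hh0 (-1)]) hH0
    linarith
  have hxz : h x ≤ h z + A * (H + 1) := by
    rcases hcase with ⟨_, hxz, _⟩ | ⟨e, he, _, _, hxe, _⟩
    · rw [hxz]
      have : 0 ≤ A * (H + 1) := by positivity
      linarith
    · have h1 := hadd e z⁻¹
      rw [hinv] at h1
      rw [hxe, one_div]
      linarith [hh0 (-1)]
  have hzx : h z ≤ h x + A * (H + 1) := by
    rcases hcase with ⟨_, hxz, _⟩ | ⟨e, he, _, hz0, hxe, _⟩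
    · rw [hxz]
      have : 0 ≤ A * (H + 1) := by positivity
      linarith
    · have h1 := hneg x e
      have e1 : z = (x - e)⁻¹ := by
        rw [hxe]
        field_simp
        ring
      rw [e1, hinv]
      linarith
  have hz54 : h z ≤ 5 / 4 * h x := by linarith
  have hz34 : 3 / 4 * h x ≤ h z := by linarith
  have hLamP : LamP P (i z) ≤ C * (5 / 4 * h x) :=
    (hLC z).trans (mul_le_mul_of_nonneg_left hz54 hC0.le)
  have hBx : B * h x ≤ |B| * h x := mul_le_mul_of_nonneg_right (le_abs_self B) hx0.le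
  have hupos : ∀ o ∈ plc S, ∀ σ : M ≃ₐ[ℚ] M, -(|B| * h x) ≤ Real.log (u o (τ σ)) := by
    intro o ho σ
    have h1 := Real.log_le_log (Real.exp_pos _) (hnear o ho (τ σ)).1
    rw [Real.log_exp] at h1
    linarith
  -- the main inequality over `M`
  have hmain' : G * Real.log m + ∑ o ∈ plc S, ∑ σ : M ≃ₐ[ℚ] M,
      max (Real.log (u o (τ σ))) (Real.log (u o (τ σ)) / 2) + δ * G / n * h x ≤
      1 / 2 * LamO P S (i z) := by
    have e1 := hEo fun o τ => max (Real.log (u o τ)) (Real.log (u o τ) / 2)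
    refine le_of_mul_le_mul_left (a := n) ?_ hn0
    calc n * (G * Real.log m + ∑ o ∈ plc S, ∑ σ : M ≃ₐ[ℚ] M,
          max (Real.log (u o (τ σ))) (Real.log (u o (τ σ)) / 2) + δ * G / n * h x)
        = G * (n * Real.log m) + n * ∑ o ∈ plc S, ∑ σ : M ≃ₐ[ℚ] M,
          max (Real.log (u o (τ σ))) (Real.log (u o (τ σ)) / 2) + G * (δ * h x) := by
            field_simp
      _ = G * (n * Real.log m + ∑ o ∈ plc S, ∑ τ : K →+* ℂ,
          max (Real.log (u o τ)) (Real.log (u o τ) / 2) + δ * h x) := by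
            rw [e1]
            ring
      _ ≤ G * (1 / 2 * ∑ o ∈ plc S, ∑ τ : K →+* ℂ, Real.log (max 1 (pv w o (τ z)))) :=
            mul_le_mul_of_nonneg_left hmain hG0.le
      _ = 1 / 2 * (G * ∑ o ∈ plc S, ∑ τ : K →+* ℂ, Real.log (max 1 (pv w o (τ z)))) := by ring
      _ = n * (1 / 2 * LamO P S (i z)) := by rw [← hLe]; ring
  have hsumu : -(N' * G * (|B| * h x)) ≤ ∑ o ∈ plc S, ∑ σ : M ≃ₐ[ℚ] M,
      max (Real.log (u o (τ σ))) (Real.log (u o (τ σ)) / 2) := by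
    have h1 : ∑ o ∈ plc S, ∑ _σ : M ≃ₐ[ℚ] M, -(|B| * h x) ≤ ∑ o ∈ plc S, ∑ σ : M ≃ₐ[ℚ] M,
        max (Real.log (u o (τ σ))) (Real.log (u o (τ σ)) / 2) :=
      sum_le_sum fun o ho => sum_le_sum fun σ _ => (hupos o ho σ).trans (le_max_left _ _)
    refine le_trans (le_of_eq ?_) h1
    rw [sum_const, sum_const, nsmul_eq_mul, nsmul_eq_mul, card_univ, hN', hG]
    ring
  have hlogm : Real.log m ≤ B₁ * h x := by
    have h1 : LamO P S (i z) ≤ C * (5 / 4 * h x) := (lamO_le_lamP P hSS (i z)).trans hLamP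
    have h0 : 0 ≤ LamO P S (i z) :=
      sum_nonneg fun o _ => sum_nonneg fun σ _ => Real.log_nonneg (le_max_left _ _)
    have h2 : 0 ≤ δ * G / n * h x := by positivity
    have h3 : Real.log m ≤ G * Real.log m := by nlinarith
    have h4 : (2 * C + N' * G * |B|) * h x ≤ B₁ * h x :=
      mul_le_mul_of_nonneg_right hB₁b hx0.le
    have h5 : 0 ≤ C * h x := by positivity
    linarith
  have hmexp : (m : ℝ) ≤ Real.exp (B₁ * h x) := by
    have h1 : (0 : ℝ) < m := by exact_mod_cast Nat.pos_of_ne_zero hm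
    rw [← Real.exp_log h1]
    exact Real.exp_le_exp.2 hlogm
  have hnvz : ∀ o ∈ plc S', ∀ σ : M ≃ₐ[ℚ] M, P.nv o (σ (i z)) ≤ Real.exp (B₁ * h x) := by
    intro o ho σ
    refine (nv_le_lam P ho σ (i z)).trans (Real.exp_le_exp.2 ?_)
    have h1 : 2 * C * h x ≤ B₁ * h x := mul_le_mul_of_nonneg_right hB₁a hx0.le
    have h2 : 0 ≤ C * h x := by positivity
    linarith
  have hnslow : ¬ HBZ P.emb (Real.exp (h x / B₁)) (i z) := by
    intro hb
    have hE0 : 0 ≤ h x / B₁ := by positivity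
    have h1 := lamP_le_hbz hS' P hE0 hb
    rw [← hN, ← hG] at h1
    obtain ⟨⟨D, hD0, hD1, hD2⟩, -⟩ := hb
    have h2 : SI S' ((D : M) * i z) := ⟨1, ⟨one_ne_zero, fun q hq hq1 => by
      exact absurd (Nat.eq_one_of_dvd_one hq1) hq.one_lt.ne'⟩, by
        rw [Nat.cast_one, one_mul]
        exact hD2⟩
    have h3 := hHi z D hD0 h2
    have h4 : Real.log D ≤ h x / B₁ := by
      have h5 : (0 : ℝ) < D := by exact_mod_cast Nat.pos_of_ne_zero hD0
      have h6 := Real.log_le_log h5 hD1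
      rwa [Real.log_exp] at h6
    have h5 : C * (Real.log D + LamP P (i z) + 1) ≤ C * ((1 + N * G) * (h x / B₁) + 1) := by
      refine mul_le_mul_of_nonneg_left ?_ hC0.le
      linarith
    have h6 : C * ((1 + N * G) * (h x / B₁) + 1) ≤ 1 / 4 * h x + C := by
      have h7 : 4 * C * (1 + N * G) * (h x / B₁) ≤ B₁ * (h x / B₁) :=
        mul_le_mul_of_nonneg_right hB₁c hE0
      have h8 : B₁ * (h x / B₁) = h x := by field_simp
      rw [h8] at h7
      linarith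
    linarith
  have hκκ : ∀ v : K, h v ≤ κ₀ * (H + 1) →
      HBZ P.emb (Real.exp (C * κ₀ * (H + 1))) (i v) := by
    intro v hv
    refine Pool.Agent.Helper2.HO.hbz_mono (Real.exp_le_exp.2 ?_) (hHB v)
    rw [mul_assoc]
    exact mul_le_mul_of_nonneg_left hv hC0.le
  have hκκ' : ∀ v : K, h v ≤ κ * (H + 1) →
      HBZ P.emb (Real.exp (C * κ₀ * (H + 1))) (i v) := by
    intro v hv
    refine hκκ v (hv.trans (mul_le_mul_of_nonneg_right ?_ (by linarith)))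
    rw [hκ₀]
    linarith [le_abs_self κ]
  have hBB : ∀ v : K, h v ≤ B * h x → HBZ P.emb (Real.exp (B₁ * h x)) (i v) := by
    intro v hv
    refine Pool.Agent.Helper2.HO.hbz_mono (Real.exp_le_exp.2 ?_) (hHB v)
    have h1 : B * h x ≤ |B| * h x := mul_le_mul_of_nonneg_right (le_abs_self B) hx0.le
    calc C * h v ≤ C * (|B| * h x) := mul_le_mul_of_nonneg_left (by linarith) hC0.le
      _ = C * |B| * h x := by ring
      _ ≤ B₁ * h x := mul_le_mul_of_nonneg_right hB₁d hx0.le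
  -- the sparse numbers
  have hlift : ∀ v : K, SumOf h Γ t (κ * (H + 1)) v → ∃ c a : Fin t → M,
      (∀ j, SV S' (a j)) ∧ (∀ j, HBZ P.emb (Real.exp (C * κ₀ * (H + 1))) (c j)) ∧
      ∑ j, c j * a j = i v := by
    intro v hv
    obtain ⟨c', γ, h1, h2, h3⟩ := hv
    refine ⟨fun j => i (c' j), fun j => i (γ j : K), fun j => hΓ _ (h2 j),
      fun j => hκκ' _ (h1 j), ?_⟩
    rw [h3, map_sum]
    exact sum_congr rfl fun j _ => (map_mul i _ _).symm
  -- the data at one place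
  have hdat : ∀ (o : Option ℕ) (σ : M ≃ₐ[ℚ] M), ∃ (k : ℕ) (e : ℕ → M) (c d a b : Fin t → M),
      o ∈ plc S → k < ν + 1 ∧
      (1 ≤ k → (∀ j, HBZ P.emb (Real.exp (C * κ₀ * (H + 1))) (e j)) ∧
        P.nv o (σ ((polD M k e).eval (i z))) ≤ u o (τ σ) ^ k) ∧
      (k = 0 → 1 ≤ u o (τ σ) ∧ (∀ j, SV S' (a j)) ∧ (∀ j, SV S' (b j)) ∧
        (∀ j, HBZ P.emb (Real.exp (C * κ₀ * (H + 1))) (c j)) ∧
        (∀ j, HBZ P.emb (Real.exp (C * κ₀ * (H + 1))) (d j)) ∧
        HBZ P.emb (Real.exp (B₁ * h x)) (∑ j, c j * a j) ∧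
        HBZ P.emb (Real.exp (B₁ * h x)) (∑ j, d j * b j) ∧ ∑ j, d j * b j ≠ 0 ∧
        P.nv o (σ (i z - i cz * ((∑ j, c j * a j) / ∑ j, d j * b j) ^ 2)) ≤ u o (τ σ)) := by
    intro o σ
    by_cases ho : o ∈ plc S
    · rcases (hnear o ho (τ σ)).2 with ⟨G₁, hG1m, hG1d, hG1n, hG1c, hG1u⟩ |
        ⟨hu1, p, q, hp, hq, hpB, hqB, hq0, hpq⟩
      · refine ⟨G₁.natDegree, fun j => i (G₁.coeff j), 0, 0, 0, 0, fun _ => ⟨by omega,
          fun _ => ⟨fun j => hκκ' _ (hG1c j), ?_⟩, fun h1 => absurd h1 (by omega)⟩⟩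
        have e1 : (polD M G₁.natDegree (fun j => i (G₁.coeff j))).eval (i z) =
            i (G₁.eval z) := by
          rw [← polD_map, polD_coeff hG1m, eval_map, eval₂_hom]
        rw [e1, hpv o ho]
        exact hG1u
      · obtain ⟨c, a, ha, hc, hpa⟩ := hlift p hp
        obtain ⟨d, b, hb, hd, hqb⟩ := hlift q hq
        refine ⟨0, 0, c, d, a, b, fun _ => ⟨by omega, fun h1 => absurd h1 (by omega),
          fun _ => ⟨hu1, ha, hb, hc, hd, ?_, ?_, ?_, ?_⟩⟩⟩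
        · rw [hpa]
          exact hBB p hpB
        · rw [hqb]
          exact hBB q hqB
        · rw [hqb, Ne, map_eq_zero]
          exact hq0
        · rw [hpa, hqb, ← map_div₀, ← map_pow, ← map_mul, ← map_sub i, hpv o ho]
          exact hpq
    · exact ⟨0, 0, 0, 0, 0, 0, fun h1 => absurd h1 ho⟩
  choose kk ee cc dd aa bb hdat using hdat
  let k₀ : ↥(plc S) × (M ≃ₐ[ℚ] M) → Fin (ν + 1) := fun oσ =>
    ⟨kk oσ.1 oσ.2, (hdat oσ.1 oσ.2 oσ.1.2).1⟩
  have hk₀ : ∀ o ∈ plc S, ∀ σ, ext k₀ o σ = kk o σ := by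
    intro o ho σ
    change (if ho : o ∈ plc S then (k₀ (⟨o, ho⟩, σ) : ℕ) else 0) = kk o σ
    rw [dif_pos ho]
  have hcore : ∀ (F₀ : K[X]) (y₀ : K), F₀.natDegree = 2 * g + 1 → F₀.Separable →
      y₀ ^ 2 = F₀.eval z → F₀.coeff (2 * g + 1) = cz →
      (∀ j, h (F₀.coeff j) ≤ κ₀ * (H + 1)) → h x ≤ C₀ * (H + 1) := by
    intro F₀ y₀ g1 g2 g3 g4 g5
    refine le_trans ?_ (mul_le_mul_of_nonneg_right (hC₀V k₀) (by linarith))
    refine hCf (ext k₀) (F₀.map i) (i z) (i y₀) H (h x) m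
      cc dd aa bb ee (fun o σ => u o (τ σ)) hH0
      (by rw [natDegree_map, g1]) g2.map (by rw [← map_pow, g3, eval_map, eval₂_hom])
      ?_ hm hintM hmexp hnvz hnslow ?_ hmain'
    · intro j
      rw [coeff_map]
      exact hκκ _ (g5 j)
    · intro o ho σ
      rw [hk₀ o ho σ, coeff_map, g4]
      refine ⟨?_, (hdat o σ ho).2.1, (hdat o σ ho).2.2⟩
      refine le_trans (Real.exp_le_exp.2 ?_) (hnear o ho (τ σ)).1
      have h1 : |B| * h x ≤ B₁ * h x := mul_le_mul_of_nonneg_right hB₁e hx0.le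
      linarith
  have hfin : h x ≤ C₀ * (H + 1) := by
    have hHκ : H ≤ κ₀ * (H + 1) := by nlinarith
    rcases hcase with ⟨hodd, hxz, hc⟩ | ⟨e, he, hFe, hz0, hxe, hc⟩
    · have hdg : d = 2 * g + 1 := by
        obtain ⟨k, hk⟩ := hodd
        omega
      refine hcore F y (by rw [hF, hdg]) hsep (by rw [← hxz]; exact hxy) (by rw [hc, hdg])
        fun j => (hH j).trans hHκ
    · have hdeg : F.natDegree = 2 * g + 2 ∨ F.natDegree = 2 * g + 1 := by
        rw [hF]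
        omega
      obtain ⟨G₁, e1, e2, e3, e4, e5⟩ := hSUBO K F g e z x y hdeg (by omega) hsep hFe hz0 hxe hxy
      refine hcore G₁ (y * z ^ (g + 1)) e1 e2 e4 (by rw [e3, hc]) fun j => ?_
      rcases le_or_gt j (2 * g + 1) with hj | hj
      · rw [e5 j hj]
        refine (hκ' F e H hF.le hH0 hH he _).trans ?_
        refine mul_le_mul_of_nonneg_right ?_ (by linarith)
        rw [hκ₀]
        linarith
      · rw [coeff_eq_zero_of_natDegree_lt (by rw [e1]; exact hj)]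
        have h0 := hH (d + 1)
        rw [coeff_eq_zero_of_natDegree_lt (by rw [hF]; omega)] at h0
        exact h0.trans hHκ
  have h1 : 0 ≤ (4 * A + 2 * C) * (H + 1) := by positivity
  linarith

end Pool.Agent.Helper12.HP
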