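import Pool.Agent.Helper71.HN.SheetE
import Pool.Agent.Helper45.SUBK.FINK

/-!
Project HE, row FLDE: a Galois number field which contains `K` and the square roots of the elements
of `Γ`, with absolute values which extend the given ones.
-/

set_option autoImplicit false

namespace Pool.Agent.Helper12.HE

open Polynomial Finset Pool.Agent.Helper70.SUB Pool.Agent.Helper77.SUBK Pool.Agent.Helper71.HE

/-- `K = ℚ(θ)` embeds into a field `M ⊆ ℂ` as soon as a conjugate of `θ` lies in `M` -/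
theorem embed_of {K M : Type} [Field K] [NumberField K] [Field M] [NumberField M]
    (τ : K →+* ℂ) (φ : M →+* ℂ) (θ : K)
    (hθ : IntermediateField.adjoin ℚ {θ} = (⊤ : IntermediateField ℚ K))
    (h : ∃ z : M, φ z = τ θ) : ∃ i : K →+* M, ∀ x, φ (i x) = τ x := by
  have hL : ∀ x : K, τ x ∈ φ.range := by
    let L : IntermediateField ℚ K :=
      { carrier := {x | τ x ∈ φ.fieldRange}
        mul_mem' := fun {a b} ha hb => by
          have h1 : τ a ∈ φ.fieldRange := ha
          have h2 : τ b ∈ φ.fieldRange := hb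
          change τ (a * b) ∈ φ.fieldRange
          rw [map_mul]
          exact mul_mem h1 h2
        add_mem' := fun {a b} ha hb => by
          have h1 : τ a ∈ φ.fieldRange := ha
          have h2 : τ b ∈ φ.fieldRange := hb
          change τ (a + b) ∈ φ.fieldRange
          rw [map_add]
          exact add_mem h1 h2
        algebraMap_mem' := fun r => by
          change τ (algebraMap ℚ K r) ∈ φ.fieldRange
          have e : τ (algebraMap ℚ K r) = φ (algebraMap ℚ M r) := by
            rw [eq_ratCast, eq_ratCast, map_ratCast, map_ratCast]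
          rw [e]
          exact ⟨_, rfl⟩
        inv_mem' := fun a ha => by
          have h1 : τ a ∈ φ.fieldRange := ha
          change τ a⁻¹ ∈ φ.fieldRange
          rw [map_inv₀]
          exact inv_mem h1 }
    have hle : (⊤ : IntermediateField ℚ K) ≤ L := by
      rw [← hθ, IntermediateField.adjoin_simple_le_iff]
      obtain ⟨z, hz⟩ := h
      exact ⟨z, hz⟩
    intro x
    have hx : x ∈ L := hle (IntermediateField.mem_top)
    obtain ⟨z, hz⟩ := hx
    exact ⟨z, hz⟩
  have hbij : Function.Bijective φ.rangeRestrict :=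
    ⟨fun a b hab => φ.injective (congrArg Subtype.val hab), φ.rangeRestrict_surjective⟩
  refine ⟨((RingEquiv.ofBijective φ.rangeRestrict hbij).symm : φ.range →+* M).comp
    (τ.codRestrict φ.range hL), fun x => ?_⟩
  have h1 := (RingEquiv.ofBijective φ.rangeRestrict hbij).apply_symm_apply
    (τ.codRestrict φ.range hL x)
  have h2 := congrArg Subtype.val h1
  exact h2

/-- an embedding of `K` is the restriction of a conjugate of `ψ` -/
theorem ext_emb {K M : Type} [Field K] [NumberField K] [Field M] [NumberField M] [IsGalois ℚ M]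
    (i : K →+* M) (ψ : M →+* ℂ) (τ : K →+* ℂ) :
    ∃ σ : M ≃ₐ[ℚ] M, ∀ z, τ z = ψ (σ (i z)) := by
  let _ : Algebra K M := i.toAlgebra
  let _ : Algebra K ℂ := τ.toAlgebra
  have hfin : FiniteDimensional K M := Module.Finite.of_restrictScalars_finite ℚ K M
  let φ : M →ₐ[K] ℂ := IsAlgClosed.lift
  obtain ⟨σ, hσ⟩ := NumberField.ComplexEmbedding.exists_comp_symm_eq_of_comp_eq (k := ℚ)
    ψ (φ : M →+* ℂ) (Subsingleton.elim _ _)
  refine ⟨σ.symm, fun z => ?_⟩
  have h1 : φ (i z) = τ z := φ.commutes z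
  have h2 : ψ (σ.symm (i z)) = φ (i z) := RingHom.congr_fun hσ (i z)
  rw [h2, h1]

/-- an extension of the `l`-adic absolute value restricts to it -/
theorem w_rat (w : AbsoluteValue ℂ ℝ) (l : ℕ) (hl : l.Prime)
    (hu : ∀ a b, w (a + b) ≤ max (w a) (w b)) (h : w (l : ℂ) = (l : ℝ)⁻¹) (q : ℚ) :
    w (q : ℂ) = ((padicNorm l q : ℚ) : ℝ) := by
  have hF : Fact l.Prime := ⟨hl⟩
  have hnat : ∀ n : ℕ, w (n : ℂ) ≤ 1 := by
    intro n
    induction n with
    | zero => rw [Nat.cast_zero, map_zero]; exact zero_le_one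
    | succ n ih =>
      rw [Nat.cast_succ]
      refine le_trans (hu _ _) (max_le ih ?_)
      rw [map_one]
  have hint : ∀ n : ℤ, w (n : ℂ) ≤ 1 := by
    intro n
    obtain ⟨k, hk | hk⟩ := n.eq_nat_or_neg
    · rw [hk, Int.cast_natCast]
      exact hnat k
    · rw [hk, Int.cast_neg, Int.cast_natCast, AbsoluteValue.map_neg]
      exact hnat k
  have hl1 : (1 : ℝ) < l := by exact_mod_cast hl.one_lt
  have hl2 : (l : ℝ)⁻¹ < 1 := inv_lt_one_of_one_lt₀ hl1
  have hunit : ∀ n : ℕ, ¬ l ∣ n → w (n : ℂ) = 1 := by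
    intro n hn
    refine le_antisymm (hnat n) ?_
    have hc : IsCoprime (n : ℤ) (l : ℤ) := by
      rw [Nat.isCoprime_iff_coprime]
      exact ((Nat.Prime.coprime_iff_not_dvd hl).mpr hn).symm
    obtain ⟨a, b, hab⟩ := hc
    have h1 : (a : ℂ) * (n : ℂ) + (b : ℂ) * (l : ℂ) = 1 := by
      exact_mod_cast congrArg (Int.cast : ℤ → ℂ) hab
    have h2 : (1 : ℝ) ≤ max (w (a : ℂ) * w (n : ℂ)) (w (b : ℂ) * (l : ℝ)⁻¹) := by
      have h3 := hu ((a : ℂ) * (n : ℂ)) ((b : ℂ) * (l : ℂ))
      rwa [h1, map_one, map_mul, map_mul, h] at h3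
    rcases le_max_iff.mp h2 with h3 | h3
    · refine le_trans h3 ?_
      calc w (a : ℂ) * w (n : ℂ) ≤ 1 * w (n : ℂ) :=
            mul_le_mul_of_nonneg_right (hint a) (w.nonneg _)
        _ = w (n : ℂ) := one_mul _
    · exfalso
      have h4 : w (b : ℂ) * (l : ℝ)⁻¹ ≤ 1 * (l : ℝ)⁻¹ :=
        mul_le_mul_of_nonneg_right (hint b) (by positivity)
      linarith
  have hn : ∀ n : ℕ, w (n : ℂ) = ((padicNorm l (n : ℚ) : ℚ) : ℝ) := by
    intro n
    by_cases h0 : n = 0
    · rw [h0, Nat.cast_zero, map_zero, Nat.cast_zero, padicNorm.zero, Rat.cast_zero]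
    · obtain ⟨k, m, hm, hk⟩ := Nat.exists_eq_pow_mul_and_not_dvd h0 l hl.ne_one
      have h1 : padicNorm l (m : ℚ) = 1 := (padicNorm.nat_eq_one_iff m).mpr hm
      have h2 : padicNorm l ((l : ℚ) ^ k) = ((l : ℚ)⁻¹) ^ k := by
        clear hk
        induction k with
        | zero => simp
        | succ k ih =>
          rw [pow_succ, pow_succ, padicNorm.mul, ih, padicNorm.padicNorm_p_of_prime]
      rw [hk]
      push_cast
      rw [map_mul, map_pow, h, hunit m hm, padicNorm.mul, h1, h2]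
      push_cast
      ring
  have hz : ∀ n : ℤ, w (n : ℂ) = ((padicNorm l (n : ℚ) : ℚ) : ℝ) := by
    intro n
    obtain ⟨k, hk | hk⟩ := n.eq_nat_or_neg
    · rw [hk, Int.cast_natCast, Int.cast_natCast]
      exact hn k
    · rw [hk, Int.cast_neg, Int.cast_natCast, Int.cast_neg, Int.cast_natCast,
        AbsoluteValue.map_neg, padicNorm.neg]
      exact hn k
  have hq : (q : ℂ) = ((q.num : ℤ) : ℂ) / ((q.den : ℕ) : ℂ) := Rat.cast_def q
  have hq' : padicNorm l q = padicNorm l ((q.num : ℤ) : ℚ) / padicNorm l ((q.den : ℕ) : ℚ) := by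
    rw [← padicNorm.div, Rat.num_div_den]
  rw [hq, map_div₀, hz, hn, hq', Rat.cast_div]

open Classical in
/-- the absolute values -/
noncomputable def nve {M : Type} (S : Finset ℕ) (w : ℕ → AbsoluteValue ℂ ℝ)
    (ψ : M → ℂ) (nv : Option ℕ → M → ℝ) : Option ℕ → M → ℝ
  | none => fun z => ‖ψ z‖
  | some l => fun z => if l ∈ S then w l (ψ z) else nv (some l) z

theorem FLDE (hSVB : ST_SVB) (hPFX : ST_PFX) : ST_FLDE := by
  classical
  intro K _ _ S w Γ hExt hfg
  obtain ⟨θ₀, hθ₀⟩ := Field.exists_primitive_element ℚ K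
  obtain ⟨θ, hθ, hθ0⟩ : ∃ θ : K, IntermediateField.adjoin ℚ {θ} = (⊤ : IntermediateField ℚ K) ∧
      θ ≠ 0 := by
    by_cases h0 : θ₀ = 0
    · refine ⟨1, ?_, one_ne_zero⟩
      rw [IntermediateField.adjoin_one]
      rw [h0, IntermediateField.adjoin_zero] at hθ₀
      exact hθ₀
    · exact ⟨θ₀, hθ₀, h0⟩
  obtain ⟨τ⟩ : Nonempty (K →+* ℂ) := inferInstance
  have ht0 : τ θ ≠ 0 := by
    rw [Ne, map_eq_zero]
    exact hθ0
  let u : ℂˣ := Units.mk0 (τ θ) ht0
  have hτalg : ∀ z : K, IsAlgebraic ℚ (τ z) := by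
    intro z
    have h1 : IsAlgebraic ℚ z := Algebra.IsAlgebraic.isAlgebraic z
    exact h1.algHom τ.toRatAlgHom
  let Γ' : Subgroup ℂˣ := Γ.map (Units.map (τ : K →* ℂ)) ⊔ Subgroup.zpowers u
  have hfg' : Γ'.FG := by
    refine Subgroup.FG.sup ?_ ?_
    · obtain ⟨T, hT⟩ := hfg
      refine ⟨T.image (Units.map (τ : K →* ℂ)), ?_⟩
      rw [Finset.coe_image, ← MonoidHom.map_closure, hT]
    rw [Subgroup.zpowers_eq_closure]
    exact ⟨{u}, by simp⟩
  have halg' : ∀ γ ∈ Γ', IsAlgebraic ℚ ((γ : ℂˣ) : ℂ) := by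
    intro γ hγ
    obtain ⟨a, ha, b, hb, rfl⟩ := Subgroup.mem_sup.mp hγ
    obtain ⟨c, -, rfl⟩ := Subgroup.mem_map.mp ha
    obtain ⟨k, rfl⟩ := Subgroup.mem_zpowers_iff.mp hb
    rw [Units.val_mul]
    refine IsAlgebraic.mul (hτalg _) ?_
    rw [Units.val_zpow_eq_zpow_val]
    have h2 : IsAlgebraic ℚ ((u : ℂˣ) : ℂ) := hτalg θ
    rcases k with k | k
    · rw [Int.ofNat_eq_natCast, zpow_natCast]
      exact h2.pow k
    · rw [zpow_negSucc]
      exact (h2.pow (k + 1)).inv
  obtain ⟨M, iF, iN, iG, S₀, φ, ζ, hS₀, -, hΓ⟩ :=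
    Pool.Agent.Helper45.SUBK.field_exists hSVB Γ' hfg' halg'
  obtain ⟨-, -, h3, -, -, -, -, h8, -, -, -, -⟩ := hSVB M
  have hu : u ∈ Γ' := (le_sup_right : Subgroup.zpowers u ≤ Γ') (Subgroup.mem_zpowers u)
  obtain ⟨ρθ, -, eθ⟩ := hΓ u hu
  obtain ⟨i, hi⟩ := embed_of τ φ θ hθ ⟨ρθ ^ 6, by rw [map_pow, eθ]; rfl⟩
  have hroot : ∀ γ ∈ Γ, ∃ ρ : M, SV S₀ ρ ∧ ρ ^ 6 = i ((γ : Kˣ) : K) := by
    intro γ hγ
    obtain ⟨ρ, hρ, e⟩ := hΓ (Units.map (τ : K →* ℂ) γ)
      ((le_sup_left : Γ.map (Units.map (τ : K →* ℂ)) ≤ Γ') (Subgroup.mem_map_of_mem _ hγ))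
    refine ⟨ρ, hρ, φ.injective ?_⟩
    rw [map_pow, e, hi]
    rfl
  have hS' : ∀ l ∈ S ∪ S₀, l.Prime := by
    intro l hl
    rcases Finset.mem_union.mp hl with h | h
    · exact (hExt l h).1
    · exact hS₀ l h
  obtain ⟨P₀⟩ := hPFX M (S ∪ S₀) hS'
  have hsome : ∀ l ∈ S, ∀ z : M, nve S w φ P₀.nv (some l) z = w l (φ z) := by
    intro l hl z
    show (if l ∈ S then w l (φ z) else P₀.nv (some l) z) = _
    rw [if_pos hl]
  have hsome' : ∀ l, l ∉ S → ∀ z : M, nve S w φ P₀.nv (some l) z = P₀.nv (some l) z := by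
    intro l hl z
    show (if l ∈ S then w l (φ z) else P₀.nv (some l) z) = _
    rw [if_neg hl]
  let P : PF (S ∪ S₀) M :=
    { nv := nve S w φ P₀.nv
      emb := φ
      inf := fun _ => rfl
      nn := by
        intro v z
        rcases v with _ | l
        · exact norm_nonneg _
        · by_cases hl : l ∈ S
          · rw [hsome l hl]
            exact (w l).nonneg _
          · rw [hsome' l hl]
            exact P₀.nn _ _
      nz := by
        intro v
        rcases v with _ | l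
        · show ‖φ 0‖ = 0
          rw [map_zero, norm_zero]
        · by_cases hl : l ∈ S
          · rw [hsome l hl, map_zero, map_zero]
          · rw [hsome' l hl]
            exact P₀.nz _
      pos := by
        intro v hv z hz
        rcases v with _ | l
        · exact norm_pos_iff.mpr ((map_ne_zero φ).mpr hz)
        · by_cases hl : l ∈ S
          · rw [hsome l hl]
            exact (w l).pos ((map_ne_zero φ).mpr hz)
          · rw [hsome' l hl]
            exact P₀.pos _ hv z hz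
      mul := by
        intro v hv z z'
        rcases v with _ | l
        · show ‖φ (z * z')‖ = ‖φ z‖ * ‖φ z'‖
          rw [map_mul, norm_mul]
        · by_cases hl : l ∈ S
          · rw [hsome l hl, hsome l hl, hsome l hl, map_mul, map_mul]
          · rw [hsome' l hl, hsome' l hl, hsome' l hl]
            exact P₀.mul _ hv z z'
      add := by
        intro v hv z z'
        rcases v with _ | l
        · show ‖φ (z + z')‖ ≤ ‖φ z‖ + ‖φ z'‖
          rw [map_add]
          exact norm_add_le _ _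
        · by_cases hl : l ∈ S
          · rw [hsome l hl, hsome l hl, hsome l hl, map_add]
            exact (w l).add_le _ _
          · rw [hsome' l hl, hsome' l hl, hsome' l hl]
            exact P₀.add _ hv z z'
      ult := by
        intro l hl' z z'
        by_cases hl : l ∈ S
        · rw [hsome l hl, hsome l hl, hsome l hl, map_add]
          exact (hExt l hl).2.1 _ _
        · rw [hsome' l hl, hsome' l hl, hsome' l hl]
          exact P₀.ult l hl' z z'
      ext := by
        intro v hv q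
        rcases v with _ | l
        · show ‖φ (q : M)‖ = av none q
          rw [map_ratCast]
          simp [av]
        · by_cases hl : l ∈ S
          · rw [hsome l hl, map_ratCast]
            exact w_rat (w l) l (hExt l hl).1 (hExt l hl).2.1 (hExt l hl).2.2 q
          · rw [hsome' l hl]
            exact P₀.ext _ hv q }
  refine ⟨M, iF, iN, iG, S ∪ S₀, P, i, Finset.subset_union_left, hS', hsome, ?_, ?_, ?_⟩
  · intro γ hγ
    obtain ⟨ρ, hρ, e⟩ := hroot γ hγ
    rw [← e]
    have h1 := (h3 S₀ (S ∪ S₀) (ρ ^ (6 : ℤ)) Finset.subset_union_right).2 (h8 S₀ ρ 6 hρ)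
    exact_mod_cast h1
  · intro γ hγ
    obtain ⟨ρ, hρ, e⟩ := hroot γ hγ
    exact ⟨ρ ^ 3, by rw [← e]; ring⟩
  · intro τ'
    exact ext_emb i φ τ'

end Pool.Agent.Helper12.HE
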