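import Pool.Agent.Helper71.HN.SheetZ
import Pool.Agent.Helper45.SUBK.FINK

/-!
Project HZ, row FLDZ: a Galois number field which contains `K` and the group `Γ`.
-/

set_option autoImplicit false

namespace Pool.Agent.Helper12.HZ

open Polynomial Pool.Agent.Helper70.SUB Pool.Agent.Helper77.SUBK Pool.Agent.Helper71.HZ

/-- `K = ℚ(θ)` embeds into a field `M ⊆ ℂ` as soon as a conjugate of `θ` lies in `M` -/
theorem embed_of {K M : Type} [Field K] [NumberField K] [Field M] [NumberField M]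
    (τ : K →+* ℂ) (φ : M →+* ℂ) (θ : K)
    (hθ : IntermediateField.adjoin ℚ {θ} = (⊤ : IntermediateField ℚ K))
    (h : ∃ z : M, φ z = τ θ) : Nonempty (K →+* M) := by
  have hL : ∀ x : K, τ x ∈ φ.range := by
    let L : IntermediateField ℚ K :=
      { carrier := {x | τ x ∈ φ.fieldRange}
        mul_mem' := fun {a b} ha hb => by
          have h1 : τ a ∈ φ.fieldRange := ha
          have h2 : τ b ∈ φ.fieldRange := hb
          change τ (a * b) ∈ φ.fieldRange
          rw [map_mul]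
          exact mul_mem h1 h2
        add_mem' := fun {a b} ha hb => by
          have h1 : τ a ∈ φ.fieldRange := ha
          have h2 : τ b ∈ φ.fieldRange := hb
          change τ (a + b) ∈ φ.fieldRange
          rw [map_add]
          exact add_mem h1 h2
        algebraMap_mem' := fun r => by
          change τ (algebraMap ℚ K r) ∈ φ.fieldRange
          have e : τ (algebraMap ℚ K r) = φ (algebraMap ℚ M r) := by
            rw [eq_ratCast, eq_ratCast, map_ratCast, map_ratCast]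
          rw [e]
          exact ⟨_, rfl⟩
        inv_mem' := fun a ha => by
          have h1 : τ a ∈ φ.fieldRange := ha
          change τ a⁻¹ ∈ φ.fieldRange
          rw [map_inv₀]
          exact inv_mem h1 }
    have hle : (⊤ : IntermediateField ℚ K) ≤ L := by
      rw [← hθ, IntermediateField.adjoin_simple_le_iff]
      obtain ⟨z, hz⟩ := h
      exact ⟨z, hz⟩
    intro x
    have hx : x ∈ L := hle (IntermediateField.mem_top)
    obtain ⟨z, hz⟩ := hx
    exact ⟨z, hz⟩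
  have hbij : Function.Bijective φ.rangeRestrict :=
    ⟨fun a b hab => φ.injective (congrArg Subtype.val hab), φ.rangeRestrict_surjective⟩
  exact ⟨((RingEquiv.ofBijective φ.rangeRestrict hbij).symm : φ.range →+* M).comp
    (τ.codRestrict φ.range hL)⟩

theorem FLDZ (hSVB : ST_SVB) : ST_FLDZ := by
  classical
  intro K _ _ Γ hfg halg
  obtain ⟨θ₀, hθ₀⟩ := Field.exists_primitive_element ℚ K
  -- a nonzero primitive element
  obtain ⟨θ, hθ, hθ0⟩ : ∃ θ : K, IntermediateField.adjoin ℚ {θ} = (⊤ : IntermediateField ℚ K) ∧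
      θ ≠ 0 := by
    by_cases h0 : θ₀ = 0
    · refine ⟨1, ?_, one_ne_zero⟩
      rw [IntermediateField.adjoin_one]
      rw [h0, IntermediateField.adjoin_zero] at hθ₀
      exact hθ₀
    · exact ⟨θ₀, hθ₀, h0⟩
  obtain ⟨τ⟩ : Nonempty (K →+* ℂ) := inferInstance
  have ht0 : τ θ ≠ 0 := by
    rw [Ne, map_eq_zero]
    exact hθ0
  let u : ℂˣ := Units.mk0 (τ θ) ht0
  have hτalg : IsAlgebraic ℚ (τ θ) := by
    have h1 : IsAlgebraic ℚ θ := Algebra.IsAlgebraic.isAlgebraic θ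
    exact h1.algHom τ.toRatAlgHom
  let Γ' : Subgroup ℂˣ := Γ ⊔ Subgroup.zpowers u
  have hfg' : Γ'.FG := by
    refine Subgroup.FG.sup hfg ?_
    rw [Subgroup.zpowers_eq_closure]
    exact ⟨{u}, by simp⟩
  have halg' : ∀ γ ∈ Γ', IsAlgebraic ℚ ((γ : ℂˣ) : ℂ) := by
    intro γ hγ
    obtain ⟨a, ha, b, hb, rfl⟩ := Subgroup.mem_sup.mp hγ
    obtain ⟨k, rfl⟩ := Subgroup.mem_zpowers_iff.mp hb
    rw [Units.val_mul]
    refine IsAlgebraic.mul (halg a ha) ?_
    rw [Units.val_zpow_eq_zpow_val]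
    have h2 : IsAlgebraic ℚ ((u : ℂˣ) : ℂ) := hτalg
    rcases k with k | k
    · rw [Int.ofNat_eq_natCast, zpow_natCast]
      exact h2.pow k
    · rw [zpow_negSucc]
      exact (h2.pow (k + 1)).inv
  obtain ⟨M, iF, iN, iG, S, φ, ζ, hS, -, hΓ⟩ :=
    Pool.Agent.Helper45.SUBK.field_exists hSVB Γ' hfg' halg'
  obtain ⟨-, -, -, -, -, -, -, h8, -, -, -, -⟩ := hSVB M
  have hpow : ∀ γ ∈ Γ', ∃ ρ : M, SV S ρ ∧ φ ρ = ((γ : ℂˣ) : ℂ) := by
    intro γ hγ
    obtain ⟨ρ, hρ, e⟩ := hΓ γ hγ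
    refine ⟨ρ ^ (6 : ℤ), h8 S ρ 6 hρ, ?_⟩
    rw [← e, map_zpow₀]
    norm_cast
  have hu : u ∈ Γ' := (le_sup_right : Subgroup.zpowers u ≤ Γ') (Subgroup.mem_zpowers u)
  obtain ⟨ρθ, -, eθ⟩ := hpow u hu
  obtain ⟨j⟩ := embed_of τ φ θ hθ ⟨ρθ, eθ⟩
  exact ⟨M, iF, iN, iG, S, φ, j, hS, fun γ hγ => hpow γ ((le_sup_left : Γ ≤ Γ') hγ)⟩

end Pool.Agent.Helper12.HZ
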