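import Pool.Agent.Helper71.HN.SheetH

/-!
# LOC: bounded derivations on tame extensions (project HN, MP_2a8cc2_nt)
-/

set_option autoImplicit false

namespace Pool.Agent.Helper71.HN

open Polynomial Finset

/-- ultrametric inequality for finite sums -/
lemma loc_sum_le {N ι : Type} [Field N] (v : AbsoluteValue N ℝ)
    (hv : ∀ a b, v (a + b) ≤ max (v a) (v b)) (S : Finset ι) (f : ι → N) (M : ℝ) (hM : 0 ≤ M)
    (h : ∀ i ∈ S, v (f i) ≤ M) : v (∑ i ∈ S, f i) ≤ M := by
  classical
  induction S using Finset.induction_on with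
  | empty => simpa using hM
  | insert a S ha ih =>
    rw [Finset.sum_insert ha]
    refine le_trans (hv _ _) (max_le (h a (Finset.mem_insert_self _ _)) ?_)
    exact ih fun i hi => h i (Finset.mem_insert_of_mem hi)

lemma loc_sum_lt {N ι : Type} [Field N] (v : AbsoluteValue N ℝ)
    (hv : ∀ a b, v (a + b) ≤ max (v a) (v b)) (S : Finset ι) (f : ι → N) (M : ℝ) (hM : 0 < M)
    (h : ∀ i ∈ S, v (f i) < M) : v (∑ i ∈ S, f i) < M := by
  classical
  induction S using Finset.induction_on with
  | empty => simpa using hM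
  | insert a S ha ih =>
    rw [Finset.sum_insert ha]
    refine lt_of_le_of_lt (hv _ _) (max_lt (h a (Finset.mem_insert_self _ _)) ?_)
    exact ih fun i hi => h i (Finset.mem_insert_of_mem hi)

/-- coefficients of a product of linear factors -/
lemma loc_coeff {N : Type} [Field N] (v : AbsoluteValue N ℝ)
    (hv : ∀ a b, v (a + b) ≤ max (v a) (v b)) (t : ℝ) (ht : 0 ≤ t) (S : Finset N)
    (h : ∀ a ∈ S, v a ≤ t) : ∀ k, k ≤ S.card →
      v ((∏ a ∈ S, (X - C a)).coeff k) ≤ t ^ (S.card - k) := by
  classical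
  induction S using Finset.induction_on with
  | empty =>
    intro k hk
    have hk0 : k = 0 := by simpa using hk
    subst hk0
    simp
  | insert a S ha ih =>
    have ih' := ih fun i hi => h i (Finset.mem_insert_of_mem hi)
    have hat : v a ≤ t := h a (Finset.mem_insert_self _ _)
    intro k hk
    rw [Finset.card_insert_of_notMem ha] at hk ⊢
    rw [Finset.prod_insert ha, sub_mul, coeff_sub, coeff_C_mul]
    have hdeg : (∏ a ∈ S, (X - C a)).natDegree = S.card := by
      simp
    have h1 : v ((X * ∏ a ∈ S, (X - C a)).coeff k) ≤ t ^ (S.card + 1 - k) := by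
      cases k with
      | zero => rw [coeff_X_mul_zero]; simp; positivity
      | succ k =>
        rw [coeff_X_mul]
        have h2 := ih' k (by omega)
        rwa [show S.card + 1 - (k + 1) = S.card - k by omega]
    have h2 : v (a * (∏ a ∈ S, (X - C a)).coeff k) ≤ t ^ (S.card + 1 - k) := by
      rcases Nat.lt_or_ge S.card k with h3 | h3
      · rw [coeff_eq_zero_of_natDegree_lt (by rw [hdeg]; exact h3)]
        simp; positivity
      · rw [map_mul, show S.card + 1 - k = (S.card - k) + 1 by omega, pow_succ, mul_comm]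
        exact mul_le_mul (ih' k h3) hat (v.nonneg _) (by positivity)
    rw [sub_eq_add_neg]
    refine le_trans (hv _ _) (max_le h1 ?_)
    rwa [v.map_neg]

/-- a derivation of a sum -/
lemma loc_dsum {N ι : Type} [Field N] (δ : N → N) (hδ : Dv δ) (S : Finset ι) (f : ι → N) :
    δ (∑ i ∈ S, f i) = ∑ i ∈ S, δ (f i) := by
  classical
  have h0 : δ 0 = 0 := by
    have h := hδ.1 0 0
    rw [add_zero] at h
    have h2 : δ 0 + 0 = δ 0 + δ 0 := by rw [add_zero]; exact h
    exact (add_left_cancel h2).symm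
  induction S using Finset.induction_on with
  | empty => simpa using h0
  | insert a S ha ih => rw [Finset.sum_insert ha, Finset.sum_insert ha, hδ.1, ih]

lemma loc_dpow {N : Type} [Field N] (δ : N → N) (hδ : Dv δ) (z : N) (k : ℕ) :
    δ (z ^ k) = k * z ^ (k - 1) * δ z := by
  have h1 : δ 1 = 0 := by
    have h := hδ.2 1 1
    rw [one_mul, one_mul] at h
    have h2 : δ 1 + 0 = δ 1 + δ 1 := by rw [add_zero]; exact h
    exact (add_left_cancel h2).symm
  induction k with
  | zero => simp [h1]
  | succ k ih =>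
    rw [pow_succ, hδ.2, ih]
    cases k with
    | zero => simp
    | succ k =>
      rw [Nat.add_sub_cancel, Nat.add_sub_cancel]
      push_cast
      ring

/-- a derivation of the value of a polynomial -/
lemma loc_deval {N : Type} [Field N] (δ : N → N) (hδ : Dv δ) (z : N) (p : N[X]) :
    δ (p.eval z) = (derivative p).eval z * δ z +
      ∑ k ∈ range (p.natDegree + 1), z ^ k * δ (p.coeff k) := by
  rw [eval_eq_sum_range, loc_dsum δ hδ, derivative_eval, sum_over_range _ (by simp), Finset.sum_mul,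
    ← Finset.sum_add_distrib]
  refine Finset.sum_congr rfl fun k _ => ?_
  rw [hδ.2, loc_dpow δ hδ]
  ring

/-- the property of one element -/
def LocP {N : Type} [Field N] (v : AbsoluteValue N ℝ) (s : Prop) (δ : N → N) (z : N) : Prop :=
  v (δ z) ≤ v z ∧ (s → v z ≤ 1 → v (δ z) < 1)

/-- the unramified or totally tame step: the conjugates are far from each other -/
lemma loc_step {N : Type} [Field N] (v : AbsoluteValue N ℝ) (s : Prop) (δ : N → N) (hδ : Dv δ)
    (hv : ∀ a b, v (a + b) ≤ max (v a) (v b)) (S : Finset N) (z : N) (hz : z ∈ S) (hz0 : z ≠ 0)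
    (hS : ∀ a ∈ S, v a = v z) (hfar : ∀ a ∈ S, a ≠ z → v z ≤ v (z - a))
    (hco : ∀ k, LocP v s δ ((∏ a ∈ S, (X - C a)).coeff k)) : LocP v s δ z := by
  classical
  obtain ⟨t, ht⟩ : ∃ t, t = v z := ⟨_, rfl⟩
  have ht0 : 0 < t := by rw [ht]; exact v.pos hz0
  obtain ⟨h, hh⟩ : ∃ h : N[X], h = ∏ a ∈ S, (X - C a) := ⟨_, rfl⟩
  have hdeg : h.natDegree = S.card := by
    rw [hh]; simp
  have hroot : h.eval z = 0 := by
    rw [hh, eval_prod]
    exact Finset.prod_eq_zero hz (by simp)
  have hfac : h = (X - C z) * ∏ a ∈ S.erase z, (X - C a) := by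
    rw [hh, Finset.mul_prod_erase S (fun a => X - C a) hz]
  have hder : (derivative h).eval z = ∏ a ∈ S.erase z, (z - a) := by
    rw [hfac, derivative_mul, eval_add, eval_mul, eval_mul, eval_prod]
    simp
  have hcard : S.card = (S.erase z).card + 1 := by
    rw [Finset.card_erase_of_mem hz]
    have := Finset.card_pos.mpr ⟨z, hz⟩
    omega
  have hlow : t ^ (S.erase z).card ≤ v ((derivative h).eval z) := by
    rw [hder, map_prod, ← Finset.prod_const]
    refine Finset.prod_le_prod (fun _ _ => ht0.le) fun a ha => ?_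
    rw [ht]
    exact hfar a (Finset.mem_of_mem_erase ha) (Finset.ne_of_mem_erase ha)
  have h0 : δ 0 = 0 := by
    have h2 := loc_dsum δ hδ (∅ : Finset N) (fun a => a)
    simpa using h2
  have hsum := loc_deval δ hδ z h
  rw [hroot, h0] at hsum
  have hsum2 : v ((derivative h).eval z) * v (δ z) =
      v (∑ k ∈ range (h.natDegree + 1), z ^ k * δ (h.coeff k)) := by
    rw [← map_mul, show (derivative h).eval z * δ z =
      -(∑ k ∈ range (h.natDegree + 1), z ^ k * δ (h.coeff k)) by linear_combination -hsum, v.map_neg]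
  have hcoef : ∀ k, k ≤ S.card → v (h.coeff k) ≤ t ^ (S.card - k) := by
    rw [hh]
    exact loc_coeff v hv t ht0.le S (fun a ha => by rw [ht]; exact (hS a ha).le)
  have hmain : v (δ z) ≤ t := by
    have h1 : v (∑ k ∈ range (h.natDegree + 1), z ^ k * δ (h.coeff k)) ≤ t ^ S.card := by
      refine loc_sum_le v hv _ _ _ (by positivity) fun k hk => ?_
      have hk' : k ≤ S.card := by
        have := Finset.mem_range.mp hk
        omega
      rw [map_mul, map_pow, ← ht]
      have h2 : v (δ (h.coeff k)) ≤ t ^ (S.card - k) := by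
        refine le_trans ?_ (hcoef k hk')
        rw [hh]; exact (hco k).1
      calc t ^ k * v (δ (h.coeff k)) ≤ t ^ k * t ^ (S.card - k) :=
            mul_le_mul_of_nonneg_left h2 (by positivity)
        _ = t ^ S.card := by rw [← pow_add, Nat.add_sub_cancel' hk']
    have h2 : t ^ (S.erase z).card * v (δ z) ≤ t ^ (S.erase z).card * t := by
      calc t ^ (S.erase z).card * v (δ z) ≤ v ((derivative h).eval z) * v (δ z) :=
            mul_le_mul_of_nonneg_right hlow (v.nonneg _)
        _ ≤ t ^ S.card := by rw [hsum2]; exact h1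
        _ = t ^ (S.erase z).card * t := by rw [hcard, pow_succ]
    exact le_of_mul_le_mul_left h2 (by positivity)
  refine ⟨by rw [← ht]; exact hmain, fun hs hz1 => ?_⟩
  rw [← ht] at hz1
  rcases hz1.lt_or_eq with h1 | h1
  · exact lt_of_le_of_lt hmain h1
  · have h2 : v (∑ k ∈ range (h.natDegree + 1), z ^ k * δ (h.coeff k)) < 1 := by
      refine loc_sum_lt v hv _ _ _ one_pos fun k hk => ?_
      have hk' : k ≤ S.card := by
        have := Finset.mem_range.mp hk
        omega
      rw [map_mul, map_pow, ← ht, h1, one_pow, one_mul]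
      have h3 := hcoef k hk'
      rw [h1, one_pow] at h3
      rw [hh] at h3 ⊢
      exact (hco k).2 hs h3
    have h3 : 1 * v (δ z) ≤ v ((derivative h).eval z) * v (δ z) := by
      refine mul_le_mul_of_nonneg_right ?_ (v.nonneg _)
      have h4 := hlow
      rwa [h1, one_pow] at h4
    rw [hsum2, one_mul] at h3
    exact lt_of_le_of_lt h3 h2

/-- the induction -/
lemma loc_main {K N : Type} [Field K] [Field N] [Algebra K N] [FiniteDimensional K N]
    (v : AbsoluteValue N ℝ) (s : Prop) (δ : N → N) (hU : Ul v) (hδ : Dv δ)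
    (hinv : ∀ (σ : N ≃ₐ[K] N) z, v (σ z) = v z) :
    ∀ n : ℕ, ∀ U W : Subgroup (N ≃ₐ[K] N), W ≤ U → Nat.card U ≤ Nat.card W + n →
      (∀ z, (∀ σ ∈ U, σ z = z) → LocP v s δ z) → ∀ z, (∀ σ ∈ W, σ z = z) → LocP v s δ z := by
  classical
  have hv := hU.1
  intro n
  induction n using Nat.strong_induction_on with
  | _ n ih =>
    intro U W hWU hcard hP z hz
    have : Fintype U := Fintype.ofFinite U
    obtain ⟨m, hm⟩ : ∃ m : ℕ, m = Fintype.card U := ⟨_, rfl⟩
    have hm0 : 0 < m := by rw [hm]; exact Fintype.card_pos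
    have hvm : v (m : N) = 1 := by
      have h := hU.2 (m : ℚ) (by exact_mod_cast hm0.ne')
      rwa [Rat.cast_natCast] at h
    have hmN : (m : N) ≠ 0 := by
      intro h0
      rw [h0, map_zero] at hvm
      exact zero_ne_one hvm
    obtain ⟨c, hc⟩ : ∃ c : N, c = (m : N)⁻¹ * ∑ σ : U, (σ : N ≃ₐ[K] N) z := ⟨_, rfl⟩
    have hcU : ∀ τ ∈ U, τ c = c := by
      intro τ hτ
      rw [hc, map_mul, map_inv₀, map_natCast, map_sum]
      congr 1
      exact Fintype.sum_equiv (Equiv.mulLeft (⟨τ, hτ⟩ : U)) _ _ (fun σ => rfl)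
    have hPc := hP c hcU
    have hvc : v c ≤ v z := by
      rw [hc, map_mul, map_inv₀, hvm, inv_one, one_mul]
      exact loc_sum_le v hv _ _ _ (v.nonneg _) fun σ _ => (hinv σ z).le
    obtain ⟨y, hy⟩ : ∃ y : N, y = z - c := ⟨_, rfl⟩
    have hvy : v y ≤ v z := by
      rw [hy, sub_eq_add_neg]
      refine le_trans (hv _ _) (max_le le_rfl ?_)
      rwa [v.map_neg]
    have hzy : z = y + c := by rw [hy]; ring
    -- it is enough to treat `y`
    have hred : LocP v s δ y → LocP v s δ z := by
      intro hPy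
      constructor
      · rw [show δ z = δ y + δ c by rw [hzy, hδ.1]]
        exact le_trans (hv _ _) (max_le (le_trans hPy.1 hvy) (le_trans hPc.1 hvc))
      · intro hs hz1
        rw [show δ z = δ y + δ c by rw [hzy, hδ.1]]
        exact lt_of_le_of_lt (hv _ _) (max_lt (hPy.2 hs (le_trans hvy hz1))
          (hPc.2 hs (le_trans hvc hz1)))
    apply hred
    by_cases hy0 : y = 0
    · rw [hy0]
      exact hP 0 (fun σ _ => map_zero σ)
    have ht0 : 0 < v y := v.pos hy0
    have hyW : ∀ σ ∈ W, σ y = y := by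
      intro σ hσ
      rw [hy, map_sub, hz σ hσ, hcU σ (hWU hσ)]
    -- the subgroup of the `σ` which move `y` a little
    let W' : Subgroup (N ≃ₐ[K] N) :=
      { carrier := {σ | σ ∈ U ∧ v (σ y - y) < v y}
        mul_mem' := by
          rintro σ τ ⟨hσ, hσ'⟩ ⟨hτ, hτ'⟩
          refine ⟨U.mul_mem hσ hτ, ?_⟩
          have h1 : (σ * τ) y - y = σ (τ y - y) + (σ y - y) := by
            rw [map_sub]
            simp
          rw [h1]
          refine lt_of_le_of_lt (hv _ _) (max_lt ?_ hσ')
          rw [hinv]; exact hτ'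
        one_mem' := ⟨U.one_mem, by simpa using ht0⟩
        inv_mem' := by
          rintro σ ⟨hσ, hσ'⟩
          refine ⟨U.inv_mem hσ, ?_⟩
          have h1 : v (σ (σ⁻¹ y - y)) = v (σ⁻¹ y - y) := hinv _ _
          have h2 : σ (σ⁻¹ y) = y := by
            change (σ * σ⁻¹) y = y
            rw [mul_inv_cancel]; rfl
          rw [← h1, map_sub, h2, v.map_sub]
          exact hσ' }
    have hWW' : W ≤ W' := fun σ hσ => ⟨hWU hσ, by rw [hyW σ hσ, sub_self, map_zero]; exact ht0⟩
    have hW'U : W' ≤ U := fun σ hσ => hσ.1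
    have hW'ne : W' ≠ U := by
      intro heq
      have h1 : ∑ σ : U, (σ : N ≃ₐ[K] N) y = 0 := by
        rw [hy]
        simp_rw [map_sub]
        rw [Finset.sum_sub_distrib]
        have h2 : ∑ σ : U, (σ : N ≃ₐ[K] N) c = (m : N) * c := by
          rw [Finset.sum_congr rfl (fun (σ : U) _ => hcU σ σ.2)]
          rw [Finset.sum_const, Finset.card_univ, ← hm, nsmul_eq_mul]
        rw [h2, hc, mul_inv_cancel_left₀ hmN, sub_self]
      have h2 : v (∑ σ : U, ((σ : N ≃ₐ[K] N) y - y)) < v y := by
        refine loc_sum_lt v hv _ _ _ ht0 fun σ _ => ?_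
        have h3 : (σ : N ≃ₐ[K] N) ∈ W' := by rw [heq]; exact σ.2
        exact h3.2
      rw [Finset.sum_sub_distrib, h1, Finset.sum_const, Finset.card_univ, ← hm, nsmul_eq_mul,
        zero_sub, v.map_neg, map_mul, hvm, one_mul] at h2
      exact lt_irrefl _ h2
    have hcU' : Nat.card W' < Nat.card U := by
      by_contra hcon
      exact hW'ne (Subgroup.eq_of_le_of_card_ge hW'U (not_lt.mp hcon))
    by_cases hWeq : W' = W
    · -- the conjugates are far from each other
      obtain ⟨S, hS⟩ : ∃ S : Finset N, S = Finset.univ.image (fun σ : U => (σ : N ≃ₐ[K] N) y) :=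
        ⟨_, rfl⟩
      have hmem : ∀ a, a ∈ S ↔ ∃ σ ∈ U, σ y = a := by
        intro a
        rw [hS, Finset.mem_image]
        constructor
        · rintro ⟨σ, -, h⟩
          exact ⟨σ, σ.2, h⟩
        · rintro ⟨σ, hσ, h⟩
          exact ⟨⟨σ, hσ⟩, Finset.mem_univ _, h⟩
      refine loc_step v s δ hδ hv S y ((hmem y).mpr ⟨1, U.one_mem, rfl⟩) hy0 ?_ ?_ ?_
      · intro a ha
        obtain ⟨σ, -, rfl⟩ := (hmem a).mp ha
        exact hinv σ y
      · intro a ha hne
        obtain ⟨σ, hσ, rfl⟩ := (hmem a).mp ha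
        by_contra hcon
        rw [not_le, v.map_sub] at hcon
        have h1 : σ ∈ W' := ⟨hσ, hcon⟩
        rw [hWeq] at h1
        exact hne (hyW σ h1)
      · intro k
        refine hP _ fun τ hτ => ?_
        have h1 : S.image τ = S := by
          ext a
          rw [Finset.mem_image, hmem]
          constructor
          · rintro ⟨b, hb, rfl⟩
            obtain ⟨σ, hσ, rfl⟩ := (hmem b).mp hb
            exact ⟨τ * σ, U.mul_mem hτ hσ, rfl⟩
          · rintro ⟨σ, hσ, rfl⟩
            refine ⟨(τ⁻¹ * σ) y, (hmem _).mpr ⟨τ⁻¹ * σ, U.mul_mem (U.inv_mem hτ) hσ, rfl⟩, ?_⟩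
            change (τ * (τ⁻¹ * σ)) y = σ y
            rw [mul_inv_cancel_left]
        have h2 : (∏ a ∈ S, (X - C a)).map (τ : N →+* N) = ∏ a ∈ S, (X - C a) := by
          rw [Polynomial.map_prod]
          have h3 : ∀ a ∈ S, (X - C a : N[X]).map (τ : N →+* N) = X - C (τ a) := by
            intro a _
            simp
          rw [Finset.prod_congr rfl h3]
          have h4 : ∏ a ∈ S.image τ, (X - C a) = ∏ a ∈ S, (X - C (τ a)) :=
            Finset.prod_image (fun a _ b _ hab => τ.injective hab)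
          rw [← h4, h1]
        have h3 := congrArg (fun p => p.coeff k) h2
        simpa using h3
    · -- two smaller steps
      have hcW' : Nat.card W < Nat.card W' := by
        by_contra hcon
        exact hWeq (Subgroup.eq_of_le_of_card_ge hWW' (not_lt.mp hcon)).symm
      have h1 : ∀ z, (∀ σ ∈ W', σ z = z) → LocP v s δ z :=
        ih (n - 1) (by omega) U W' hW'U (by omega) hP
      exact ih (n - 1) (by omega) W' W hWW' (by omega) h1 y hyW

/-- LOC: tame extensions -/
theorem LOC : ST_LOC := by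
  intro K N _ _ _ _ _ _ v s δ hU hinv hδ h1 h2
  have hbase : ∀ z : N, (∀ σ ∈ (⊤ : Subgroup (N ≃ₐ[K] N)), σ z = z) → LocP v s δ z := by
    intro z hz
    have h3 : z ∈ (⊥ : IntermediateField K N) :=
      (IsGalois.mem_bot_iff_fixed z).mpr fun σ => hz σ (Subgroup.mem_top _)
    obtain ⟨a, rfl⟩ := IntermediateField.mem_bot.mp h3
    exact ⟨h1 a, fun hs => h2 hs a⟩
  have hall : ∀ z : N, LocP v s δ z := fun z =>
    loc_main v s δ hU hδ hinv (Nat.card (⊤ : Subgroup (N ≃ₐ[K] N))) ⊤ ⊥ bot_le (by omega) hbase z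
      (by intro σ hσ; rw [Subgroup.mem_bot.mp hσ]; rfl)
  exact ⟨fun z => (hall z).1, fun hs z hz => (hall z).2 hs hz⟩

end Pool.Agent.Helper71.HN
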