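import Pool.Agent.Helper71.HN.SheetP

/-! Row LOCD of sheet P (MP_2a8cc2_nt): the flag at a place where `x` is not large (helper12). -/

set_option autoImplicit false

namespace Pool.Agent.Helper12.HP

open Polynomial Finset Pool.Agent.Helper71.JN Pool.Agent.Helper71.HN Pool.Agent.Helper77.HE
open Pool.Agent.Helper71.HX Pool.Agent.Helper71.HP

section
variable {F Ω : Type} [Field F] [Field Ω] [Algebra F Ω]

/-- the codimension of a kernel is at most the number of conditions -/
theorem codim_ker (K : IntermediateField F Ω) (κ ι : Type) [Fintype κ] [Fintype ι]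
    (L : (κ → K) →ₗ[K] (ι → K)) :
    Fintype.card κ ≤ Module.finrank K (LinearMap.ker L) + Fintype.card ι := by
  have h1 := LinearMap.finrank_range_add_finrank_ker L
  have h2 : Module.finrank K (LinearMap.range L) ≤ Fintype.card ι := by
    refine (Submodule.finrank_le _).trans (le_of_eq ?_)
    exact Module.finrank_fintype_fun_eq_card K
  have h3 : Module.finrank K (κ → K) = Fintype.card κ := Module.finrank_fintype_fun_eq_card K
  omega

/-- size of a sum with small terms -/
theorem v_sum_le {v : AbsoluteValue Ω ℝ} (hv : ∀ a b, v (a + b) ≤ max (v a) (v b))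
    {ι : Type} (s : Finset ι) (t : ι → Ω) (B : ℝ) (hB : 0 ≤ B) (h : ∀ i ∈ s, v (t i) ≤ B) :
    v (∑ i ∈ s, t i) ≤ B := by
  classical
  induction s using Finset.induction_on with
  | empty => simpa using hB
  | insert a s ha ih =>
    rw [Finset.sum_insert ha]
    exact (hv _ _).trans (max_le (h a (Finset.mem_insert_self _ _))
      (ih fun i hi => h i (Finset.mem_insert_of_mem hi)))

/-- the value of an integral polynomial at an integral element -/
theorem v_aeval_le (K : IntermediateField F Ω) {v : AbsoluteValue Ω ℝ}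
    (hv : ∀ a b, v (a + b) ≤ max (v a) (v b)) (P : K[X]) (x : Ω)
    (hx : v x ≤ 1) (hP : ∀ i, v (P.coeff i : Ω) ≤ 1) : v (aeval x P) ≤ 1 := by
  rw [aeval_eq_sum_range]
  refine v_sum_le hv _ _ 1 zero_le_one fun i _ => ?_
  rw [Algebra.smul_def, map_mul, map_pow]
  exact mul_le_one₀ (hP i) (pow_nonneg (v.nonneg _) _) (pow_le_one₀ (v.nonneg _) hx)

/-- division by a power -/
theorem div_pow_int (hDIV : ST_DIV) (K : IntermediateField F Ω) {v : AbsoluteValue Ω ℝ}
    (hv : ∀ a b, v (a + b) ≤ max (v a) (v b)) (G : K[X]) (hG : G.Monic)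
    (hGi : ∀ i, v (G.coeff i : Ω) ≤ 1) (a : ℕ) : ∀ P : K[X], (∀ i, v (P.coeff i : Ω) ≤ 1) →
    G ^ a ∣ P → ∃ Q : K[X], P = G ^ a * Q ∧ ∀ i, v (Q.coeff i : Ω) ≤ 1 := by
  induction a with
  | zero =>
    intro P hP _
    exact ⟨P, by rw [pow_zero, one_mul], hP⟩
  | succ a ih =>
    intro P hP hd
    obtain ⟨Q, hQ, hQi⟩ := hDIV F Ω K v G P hv hG hGi hP
      ((Dvd.intro_left (G ^ a) (pow_succ G a).symm).trans hd)
    have hd2 : G ^ a ∣ Q := by
      rw [hQ, pow_succ'] at hd
      exact (mul_dvd_mul_iff_left hG.ne_zero).1 hd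
    obtain ⟨R, hR, hRi⟩ := ih Q hQi hd2
    refine ⟨R, ?_, hRi⟩
    rw [hQ, hR, pow_succ']
    ring

end

/-- the two polynomials of a vector -/
noncomputable def PX {F Ω : Type} [Field F] [Field Ω] [Algebra F Ω] (K : IntermediateField F Ω)
    (M N : ℕ) : ((Fin M ⊕ Fin N) → K) →ₗ[K] K[X] :=
  ∑ n : Fin M, (Polynomial.monomial (n : ℕ)).comp (LinearMap.proj (Sum.inl n))

/-- the two polynomials of a vector -/
noncomputable def PY {F Ω : Type} [Field F] [Field Ω] [Algebra F Ω] (K : IntermediateField F Ω)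
    (M N : ℕ) : ((Fin M ⊕ Fin N) → K) →ₗ[K] K[X] :=
  ∑ j : Fin N, (Polynomial.monomial (j : ℕ)).comp (LinearMap.proj (Sum.inr j))

section
variable {F Ω : Type} [Field F] [Field Ω] [Algebra F Ω]

theorem PX_apply (K : IntermediateField F Ω) (M N : ℕ) (u : (Fin M ⊕ Fin N) → K) :
    PX K M N u = ∑ n : Fin M, Polynomial.monomial (n : ℕ) (u (Sum.inl n)) := by
  rw [PX, LinearMap.sum_apply]
  rfl

theorem PY_apply (K : IntermediateField F Ω) (M N : ℕ) (u : (Fin M ⊕ Fin N) → K) :
    PY K M N u = ∑ n : Fin N, Polynomial.monomial (n : ℕ) (u (Sum.inr n)) := by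
  rw [PY, LinearMap.sum_apply]
  rfl

theorem coeff_sum_mono_le (K : IntermediateField F Ω) {v : AbsoluteValue Ω ℝ}
    (hv : ∀ a b, v (a + b) ≤ max (v a) (v b)) (M : ℕ) (w : Fin M → K)
    (hw : ∀ n, v (w n : Ω) ≤ 1) (i : ℕ) :
    v (((∑ n : Fin M, Polynomial.monomial (n : ℕ) (w n)).coeff i : K) : Ω) ≤ 1 := by
  rw [finsetSum_coeff]
  have h1 : ((∑ n : Fin M, (Polynomial.monomial (n : ℕ) (w n)).coeff i : K) : Ω) =
      ∑ n : Fin M, (((Polynomial.monomial (n : ℕ) (w n)).coeff i : K) : Ω) := by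
    exact map_sum (algebraMap K Ω) _ _
  rw [h1]
  refine v_sum_le hv _ _ 1 zero_le_one fun n _ => ?_
  rw [coeff_monomial]
  split_ifs
  · exact hw n
  · rw [ZeroMemClass.coe_zero, map_zero]
    exact zero_le_one

theorem aeval_sum_mono (K : IntermediateField F Ω) (x : Ω) (M : ℕ) (w : Fin M → K) :
    aeval x (∑ n : Fin M, Polynomial.monomial (n : ℕ) (w n)) =
      ∑ n : Fin M, (w n : Ω) * x ^ (n : ℕ) := by
  rw [map_sum]
  refine Finset.sum_congr rfl fun n _ => ?_
  rw [aeval_monomial]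
  rfl

/-- the sum is `P(x) + Q(x) y` -/
theorem sum_eE (K : IntermediateField F Ω) (x y : Ω) (M N : ℕ) (u : (Fin M ⊕ Fin N) → K) :
    ∑ k, (u k : Ω) * eE x y M N k = aeval x (PX K M N u) + aeval x (PY K M N u) * y := by
  rw [Fintype.sum_sum_type, PX_apply, PY_apply, aeval_sum_mono, aeval_sum_mono, Finset.sum_mul]
  congr 1
  refine Finset.sum_congr rfl fun j _ => ?_
  show (u (Sum.inr j) : Ω) * (x ^ (j : ℕ) * y) = _
  ring

end

/-- the conditions: the coefficients of the two remainders -/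
noncomputable def LC {F Ω : Type} [Field F] [Field Ω] [Algebra F Ω] (K : IntermediateField F Ω)
    (M N : ℕ) (H : K[X]) : ((Fin M ⊕ Fin N) → K) →ₗ[K]
      ((Fin H.natDegree ⊕ Fin H.natDegree) → K) :=
  LinearMap.pi (Sum.elim
    (fun i => (Polynomial.lcoeff K (i : ℕ)).comp ((Polynomial.modByMonicHom H).comp (PX K M N)))
    (fun i => (Polynomial.lcoeff K (i : ℕ)).comp ((Polynomial.modByMonicHom H).comp (PY K M N))))

theorem LC_dvd {F Ω : Type} [Field F] [Field Ω] [Algebra F Ω] (K : IntermediateField F Ω)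
    (M N : ℕ) (H : K[X]) (hH : H.Monic) (u : (Fin M ⊕ Fin N) → K) (hu : LC K M N H u = 0) :
    H ∣ PX K M N u ∧ H ∣ PY K M N u := by
  have key : ∀ P : K[X], (∀ i : Fin H.natDegree, (P %ₘ H).coeff i = 0) → H ∣ P := by
    intro P hP
    rw [← modByMonic_eq_zero_iff_dvd hH]
    ext i
    rw [coeff_zero]
    by_cases hi : i < H.natDegree
    · exact congrArg _ (hP ⟨i, hi⟩)
    · refine congrArg _ (coeff_eq_zero_of_degree_lt ((degree_modByMonic_lt P hH).trans_le ?_))
      rw [degree_eq_natDegree hH.ne_zero]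
      exact_mod_cast not_lt.1 hi
  exact ⟨key _ fun i => congrFun hu (Sum.inl i), key _ fun i => congrFun hu (Sum.inr i)⟩

/-- **(LOCD)** -/
theorem LOCD (hDIV : ST_DIV) : ST_LOCD := by
  intro F Ω _ _ _ _ K v g N G c x y hv hF hyl hx hGm hGd hGi hc hGx
  have hu := hv.1
  refine ⟨fun b => LinearMap.ker (LC K (N + g + 1) N (G ^ (b / (2 * G.natDegree)))), ?_, ?_⟩
  · intro b _
    have h1 := codim_ker K _ _ (LC K (N + g + 1) N (G ^ (b / (2 * G.natDegree))))
    have h2 : (G ^ (b / (2 * G.natDegree))).natDegree = b / (2 * G.natDegree) * G.natDegree :=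
      hGm.natDegree_pow _
    have h3 : b / (2 * G.natDegree) * (2 * G.natDegree) ≤ b := Nat.div_mul_le_self _ _
    simp only [Fintype.card_sum, Fintype.card_fin] at h1
    beta_reduce
    have h4 : b / (2 * G.natDegree) * (2 * G.natDegree) =
      b / (2 * G.natDegree) * G.natDegree + b / (2 * G.natDegree) * G.natDegree := by ring
    omega
  · intro b _ u hu0 hui
    set a : ℕ := b / (2 * G.natDegree) with ha
    obtain ⟨hdX, hdY⟩ := LC_dvd K (N + g + 1) N (G ^ a) (hGm.pow a) u hu0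
    have hPX : ∀ i, v ((PX K (N + g + 1) N u).coeff i : Ω) ≤ 1 := by
      intro i
      rw [PX_apply]
      exact coeff_sum_mono_le K hu _ _ (fun n => hui _) i
    have hPY : ∀ i, v ((PY K (N + g + 1) N u).coeff i : Ω) ≤ 1 := by
      intro i
      rw [PY_apply]
      exact coeff_sum_mono_le K hu _ _ (fun n => hui _) i
    obtain ⟨QX, hQX, hQXi⟩ := div_pow_int hDIV K hu G hGm hGi a _ hPX hdX
    obtain ⟨QY, hQY, hQYi⟩ := div_pow_int hDIV K hu G hGm hGi a _ hPY hdY
    have hG1 : v (aeval x G) ^ a ≤ Real.exp ((b / 2 - G.natDegree) * c) := by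
      refine (pow_le_pow_left₀ (v.nonneg _) hGx a).trans ?_
      rw [← Real.exp_nat_mul, Real.exp_le_exp]
      have h1 : b < (a + 1) * (2 * G.natDegree) := by
        rw [mul_comm, ha]
        exact Nat.lt_mul_div_succ b (by omega)
      have h2 : (b : ℝ) ≤ (a + 1) * (2 * G.natDegree) := by exact_mod_cast h1.le
      have h3 : (b / 2 - G.natDegree : ℝ) ≤ a * G.natDegree := by linarith
      have h4 := mul_le_mul_of_nonpos_right h3 hc
      linarith
    rw [sum_eE]
    refine (hu _ _).trans (max_le ?_ ?_)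
    · rw [hQX, map_mul, map_pow, map_mul, map_pow]
      exact (mul_le_of_le_one_right (pow_nonneg (v.nonneg _) _)
        (v_aeval_le K hu _ x hx hQXi)).trans hG1
    · have e : v (aeval x (G ^ a * QY) * y) = v (aeval x G) ^ a * v (aeval x QY) * v y := by
        simp only [map_mul, map_pow]
      rw [hQY, e]
      exact (mul_le_of_le_one_right (mul_nonneg (pow_nonneg (v.nonneg _) _) (v.nonneg _)) hyl).trans
        ((mul_le_of_le_one_right (pow_nonneg (v.nonneg _) _)
          (v_aeval_le K hu _ x hx hQYi)).trans hG1)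

end Pool.Agent.Helper12.HP
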